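import Pool.Agent.H67.WA.Mk

/-!
# [H88 SO MKS] Minkowski reduction for subgroups of the integers of a cubic extension (60 min)

This is `Pool.Agent.H67.WA.mink` (`H67/WA/Mk.lean`) and `mk_min` (`H67/WA/MkB.lean`) with `L = 1`, `w = 1` and a subgroup `R` of finite index in `𝓞 F` instead of `L`: copy the proofs (private lemmas have to be copied), replace `z ∈ L` by `z ∈ R`.
Changes: `gau_fin`: subset of the old finite set. `exists_out`: for every `y` a nonzero integer multiple is in `R` (`y` times a denominator is integral, times the index `i` is in `R`: `AddSubgroup.nsmul_index_mem`-type, `relIndex` = index in the subtype); `R` is not contained in a proper `K`-subspace. `mk_rank`: the same with `R ⊓ W` (only the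
nonzero integer multiple is used; `R` as a `ℤ`-submodule `AddSubgroup.toIntSubmodule R`). `mk_lat`: `Lz = R`, finite over `ℤ` (submodule of the noetherian `ℤ`-module of the integers; `mk_sub` applies), gives `L' ≤ R` with `L'.relIndex R ≤ a ^ (2 d) b ^ d`, not 0. Then `L'.relIndex 𝓞 = L'.relIndex R * R.relIndex 𝓞` (`AddSubgroup.relIndex_mul_relIndex`) in `mk_box` with
`L = 1` (`FractionalIdeal.absNorm_one`, `FractionalIdeal.mem_one_iff`: the subgroup of `1` is `OFA F`). `C = 8 ^ (3 d)`.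
-/

set_option autoImplicit false

open scoped NumberField nonZeroDivisors
open NumberField Pool.Agent.H67.WA

noncomputable section

namespace H88.SO

/-- the integers as a subgroup of the field -/
def OFA (F : Type) [Field F] [NumberField F] : AddSubgroup F := (algebraMap (𝓞 F) F).toAddMonoidHom.range

theorem mem_OFA {F : Type} [Field F] [NumberField F] (x : F) : x ∈ OFA F ↔ IsIntegral ℤ x := by
  constructor
  · rintro ⟨y, rfl⟩
    exact y.isIntegral_coe
  · intro h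
    exact ⟨⟨x, h⟩, rfl⟩

private theorem mulR {F : Type} [Field F] [NumberField F] (R : AddSubgroup F) (hi : R.relIndex (OFA F) ≠ 0) (y : F) :
    ∃ n : ℤ, n ≠ 0 ∧ n • y ∈ R := by
  have halg : IsAlgebraic ℤ y :=
    (IsFractionRing.isAlgebraic_iff ℤ ℚ F).mpr (Algebra.IsAlgebraic.isAlgebraic _)
  obtain ⟨n, hn, hint⟩ := halg.exists_integral_multiple
  have h1 : n • y ∈ OFA F := (mem_OFA _).2 hint
  refine ⟨(R.relIndex (OFA F) : ℤ) * n, mul_ne_zero (by exact_mod_cast hi) hn, ?_⟩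
  have h2 := AddSubgroup.nsmul_index_mem (R.addSubgroupOf (OFA F)) (⟨n • y, h1⟩ : OFA F)
  rw [AddSubgroup.mem_addSubgroupOf] at h2
  rw [mul_smul, natCast_zsmul]
  exact h2

private def gau {F : Type} [Field F] [NumberField F] (w : (F →+* ℂ) → ℝ) (z : F) : ℝ :=
  Finset.univ.sup' Finset.univ_nonempty fun φ : F →+* ℂ => w φ * ‖φ z‖

private theorem gau_le {F : Type} [Field F] [NumberField F] (w : (F →+* ℂ) → ℝ) (z : F) (B : ℝ) :
    gau w z ≤ B ↔ ∀ φ, w φ * ‖φ z‖ ≤ B := by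
  unfold gau
  rw [Finset.sup'_le_iff]
  exact ⟨fun h φ => h φ (Finset.mem_univ φ), fun h φ _ => h φ⟩

private theorem gau_fin {F : Type} [Field F] [NumberField F] (w : (F →+* ℂ) → ℝ)
    (hw : ∀ φ, 0 < w φ) (R : AddSubgroup F) (hR : R ≤ OFA F) (B : ℝ) :
    {z : F | z ∈ R ∧ gau w z ≤ B}.Finite := by
  have hfin := Embeddings.finite_of_norm_le F ℂ (∑ φ : F →+* ℂ, |B| / w φ)
  refine hfin.subset ?_
  rintro z ⟨hz, hG⟩
  rw [gau_le] at hG
  refine ⟨(mem_OFA z).1 (hR hz), fun φ => ?_⟩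
  have h1 : ‖φ z‖ ≤ |B| / w φ := by
    rw [le_div_iff₀ (hw φ), mul_comm]
    exact (hG φ).trans (le_abs_self B)
  refine h1.trans ?_
  exact Finset.single_le_sum (f := fun φ : F →+* ℂ => |B| / w φ)
    (fun ψ _ => div_nonneg (abs_nonneg _) (hw ψ).le) (Finset.mem_univ φ)

private theorem exists_out (K F : Type) [Field K] [NumberField K] [Field F] [NumberField F]
    [Algebra K F] (R : AddSubgroup F) (hi : R.relIndex (OFA F) ≠ 0) (W : Submodule K F) (hW : W ≠ ⊤) :
    ∃ z ∈ R, z ∉ W := by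
  by_contra hcon
  push Not at hcon
  apply hW
  rw [eq_top_iff]
  rintro y -
  obtain ⟨n, hn, hy⟩ := mulR R hi y
  have h2 := hcon _ hy
  rw [← Int.cast_smul_eq_zsmul K] at h2
  have hn' : (n : K) ≠ 0 := by exact_mod_cast hn
  have h4 := W.smul_mem (n : K)⁻¹ h2
  rwa [smul_smul, inv_mul_cancel₀ hn', one_smul] at h4

private theorem min_out (K F : Type) [Field K] [NumberField K] [Field F] [NumberField F]
    [Algebra K F] (w : (F →+* ℂ) → ℝ) (hw : ∀ φ, 0 < w φ)
    (L : AddSubgroup F) (hR : L ≤ OFA F) (hi : L.relIndex (OFA F) ≠ 0) (W : Submodule K F) (hW : W ≠ ⊤) :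
    ∃ x ∈ L, x ∉ W ∧ ∀ z ∈ L, z ∉ W → gau w x ≤ gau w z := by
  obtain ⟨z0, hz0, hz0W⟩ := exists_out K F L hi W hW
  have hfin : {z : F | (z ∈ L ∧ gau w z ≤ gau w z0) ∧ z ∉ W}.Finite :=
    (gau_fin w hw L hR (gau w z0)).subset fun z hz => hz.1
  obtain ⟨x, hx, hmin⟩ := Set.exists_min_image _ (gau w) hfin ⟨z0, ⟨hz0, le_rfl⟩, hz0W⟩
  refine ⟨x, hx.1.1, hx.2, fun z hz hzW => ?_⟩
  rcases le_total (gau w z) (gau w z0) with h | h
  · exact hmin z ⟨⟨hz, h⟩, hzW⟩
  · exact hx.1.2.trans h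

private theorem ne_top_of_card (K F : Type) [Field K] [Field F] [Algebra K F]
    (hF : Module.finrank K F = 3) (s : Finset F) (hs : s.card < 3) :
    Submodule.span K (s : Set F) ≠ ⊤ := by
  intro h
  have h1 := finrank_span_finset_le_card (R := K) s
  rw [Set.finrank, h, finrank_top, hF] at h1
  omega

private theorem mk_minS (K F : Type) [Field K] [NumberField K] [Field F] [NumberField F] [Algebra K F]
    (hF : Module.finrank K F = 3) (w : (F →+* ℂ) → ℝ) (hw : ∀ φ, 0 < w φ)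
    (L : AddSubgroup F) (hR : L ≤ OFA F) (hi : L.relIndex (OFA F) ≠ 0) :
    ∃ (x : Fin 3 → F) (l : Fin 3 → ℝ), LinearIndependent K x ∧ (∀ i, x i ∈ L) ∧ 0 < l 0 ∧
      l 0 ≤ l 1 ∧ l 1 ≤ l 2 ∧ (∀ i φ, w φ * ‖φ (x i)‖ ≤ l i) ∧
      ∀ z ∈ L, ∀ B : ℝ, (∀ φ, w φ * ‖φ z‖ ≤ B) → (z ≠ 0 → l 0 ≤ B) ∧
        (z ∉ Submodule.span K {x 0} → l 1 ≤ B) ∧ (z ∉ Submodule.span K {x 0, x 1} → l 2 ≤ B) := by
  classical
  have t0 : (⊥ : Submodule K F) ≠ ⊤ := by
    have := ne_top_of_card K F hF ∅ (by simp)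
    rwa [Finset.coe_empty, Submodule.span_empty] at this
  obtain ⟨x0, hx0, hx0W, hm0⟩ := min_out K F w hw L hR hi ⊥ t0
  have t1 : Submodule.span K {x0} ≠ ⊤ := by
    have := ne_top_of_card K F hF {x0} (by simp)
    rwa [Finset.coe_singleton] at this
  obtain ⟨x1, hx1, hx1W, hm1⟩ := min_out K F w hw L hR hi _ t1
  have t2 : Submodule.span K {x0, x1} ≠ ⊤ := by
    have := ne_top_of_card K F hF {x0, x1} (Finset.card_le_two.trans_lt (by norm_num))
    rwa [Finset.coe_insert, Finset.coe_singleton] at this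
  obtain ⟨x2, hx2, hx2W, hm2⟩ := min_out K F w hw L hR hi _ t2
  have e0 : x0 ≠ 0 := fun h => hx0W (by rw [h]; exact Submodule.zero_mem _)
  have e1 : x1 ≠ 0 := fun h => hx1W (by rw [h]; exact Submodule.zero_mem _)
  have hsub : Submodule.span K {x0} ≤ Submodule.span K {x0, x1} :=
    Submodule.span_mono (by intro y hy; left; exact hy)
  refine ⟨![x0, x1, x2], ![gau w x0, gau w x1, gau w x2], ?_, ?_, ?_, ?_, ?_, ?_, ?_⟩
  · rw [Fintype.linearIndependent_iff]
    intro g hg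
    rw [Fin.sum_univ_three] at hg
    have hg' : g 0 • x0 + g 1 • x1 + g 2 • x2 = 0 := hg
    have g2 : g 2 = 0 := by
      by_contra h
      apply hx2W
      have h1 : x2 = (-(g 2)⁻¹ * g 0) • x0 + (-(g 2)⁻¹ * g 1) • x1 := by
        have h2 : g 2 • x2 = -(g 0 • x0 + g 1 • x1) := by
          rw [eq_neg_iff_add_eq_zero, ← hg']
          abel
        calc x2 = (g 2)⁻¹ • (g 2 • x2) := by rw [smul_smul, inv_mul_cancel₀ h, one_smul]
          _ = _ := by
            rw [h2, smul_neg, smul_add, smul_smul, smul_smul, neg_add, neg_mul, neg_mul, neg_smul,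
              neg_smul]
      rw [h1]
      exact Submodule.add_mem _
        (Submodule.smul_mem _ _ (Submodule.subset_span (Set.mem_insert _ _)))
        (Submodule.smul_mem _ _ (Submodule.subset_span (Set.mem_insert_of_mem _ rfl)))
    rw [g2, zero_smul, add_zero] at hg'
    have g1 : g 1 = 0 := by
      by_contra h
      apply hx1W
      have h1 : x1 = (-(g 1)⁻¹ * g 0) • x0 := by
        have h2 : g 1 • x1 = -(g 0 • x0) := by
          rw [eq_neg_iff_add_eq_zero, ← hg']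
          abel
        calc x1 = (g 1)⁻¹ • (g 1 • x1) := by rw [smul_smul, inv_mul_cancel₀ h, one_smul]
          _ = _ := by rw [h2, smul_neg, smul_smul, neg_mul, neg_smul]
      rw [h1]
      exact Submodule.smul_mem _ _ (Submodule.mem_span_singleton_self x0)
    rw [g1, zero_smul, add_zero] at hg'
    have g0 : g 0 = 0 := (smul_eq_zero.mp hg').resolve_right e0
    intro i
    fin_cases i
    · exact g0
    · exact g1
    · exact g2
  · intro i
    fin_cases i
    · exact hx0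
    · exact hx1
    · exact hx2
  · change 0 < gau w x0
    obtain ⟨φ⟩ : Nonempty (F →+* ℂ) := inferInstance
    have h1 : w φ * ‖φ x0‖ ≤ gau w x0 := (gau_le w x0 _).mp le_rfl φ
    refine lt_of_lt_of_le ?_ h1
    exact mul_pos (hw φ) (norm_pos_iff.mpr ((map_ne_zero φ).mpr e0))
  · exact hm0 x1 hx1 (fun h => e1 ((Submodule.mem_bot K).mp h))
  · exact hm1 x2 hx2 (fun h => hx2W (hsub h))
  · intro i φ
    fin_cases i
    · exact (gau_le w x0 _).mp le_rfl φ
    · exact (gau_le w x1 _).mp le_rfl φ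
    · exact (gau_le w x2 _).mp le_rfl φ
  · intro z hz B hB
    have hG : gau w z ≤ B := (gau_le w z B).mpr hB
    refine ⟨fun h => ?_, fun h => ?_, fun h => ?_⟩
    · exact (hm0 z hz (fun h' => h ((Submodule.mem_bot K).mp h'))).trans hG
    · exact (hm1 z hz h).trans hG
    · exact (hm2 z hz h).trans hG

/-- the rank of the lattice of the points of `L` in a `K`-subspace -/
private theorem mk_rankS (K F : Type) [Field K] [NumberField K] [Field F] [NumberField F] [Algebra K F]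
    (L : AddSubgroup F) (hi : L.relIndex (OFA F) ≠ 0) (W : Submodule K F) :
    Module.finrank ℤ (AddSubgroup.toIntSubmodule L ⊓ (W.restrictScalars ℤ) :
      Submodule ℤ F) = Module.finrank ℚ K * Module.finrank K W := by
  set Lam : Submodule ℤ F := AddSubgroup.toIntSubmodule L ⊓ (W.restrictScalars ℤ)
    with hLam
  let f : Lam →ₗ[ℤ] W :=
    { toFun := fun x => ⟨x.1, x.2.2⟩
      map_add' := fun x y => rfl
      map_smul' := fun n x => rfl }
  have hf : IsLocalizedModule (nonZeroDivisors ℤ) f := by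
    refine ⟨fun s => ?_, fun y => ?_, fun {x₁ x₂} h => ?_⟩
    · rw [Module.End.isUnit_iff]
      have hs : ((s : ℤ) : K) ≠ 0 := by
        exact_mod_cast nonZeroDivisors.ne_zero s.2
      constructor
      · intro x y hxy
        have h1 : (s : ℤ) • x = (s : ℤ) • y := hxy
        rw [← Int.cast_smul_eq_zsmul K, ← Int.cast_smul_eq_zsmul K] at h1
        exact smul_right_injective _ hs h1
      · intro y
        refine ⟨((s : ℤ) : K)⁻¹ • y, ?_⟩
        change (s : ℤ) • (((s : ℤ) : K)⁻¹ • y) = y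
        rw [← Int.cast_smul_eq_zsmul K, smul_smul, mul_inv_cancel₀ hs, one_smul]
    · obtain ⟨n, hn, hny⟩ := mulR L hi (y : F)
      refine ⟨(⟨n • (y : F), hny, ?_⟩, ⟨n, mem_nonZeroDivisors_of_ne_zero hn⟩), ?_⟩
      · exact (W.restrictScalars ℤ).smul_mem n y.2
      · rfl
    · refine ⟨1, ?_⟩
      have h1 : (x₁ : F) = x₂ := congrArg (fun t : W => (t : F)) h
      rw [Subtype.ext h1]
  have h1 : Module.finrank ℤ W = Module.finrank ℤ Lam :=
    IsLocalizedModule.finrank_eq (nonZeroDivisors ℤ) f le_rfl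
  have h2 : Module.finrank ℚ W = Module.finrank ℤ W := IsFractionRing.finrank_right_eq ℤ ℚ W
  rw [← h1, ← h2, Module.finrank_mul_finrank]

/-- the stretched sublattice in the field -/
private theorem mk_latS (K F : Type) [Field K] [NumberField K] [Field F] [NumberField F]
    [Algebra K F] (L : AddSubgroup F) (hR : L ≤ OFA F) (hi0 : L.relIndex (OFA F) ≠ 0) (W1 W2 : Submodule K F)
    (h12 : W1 ≤ W2) (h1 : Module.finrank K W1 = 1) (h2 : Module.finrank K W2 = 2) (a b : ℕ)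
    (ha : a ≠ 0) (hb : b ≠ 0) :
    ∃ L' : AddSubgroup F, (∀ z ∈ L', z ∈ L) ∧
      L'.relIndex L ≠ 0 ∧
      L'.relIndex L ≤
        a ^ (2 * Module.finrank ℚ K) * b ^ Module.finrank ℚ K ∧
      (∀ z ∈ L', z ∈ W2 → ∃ y ∈ L, z = (a : ℤ) • y) ∧
      (∀ z ∈ L', z ∈ W1 → ∃ y ∈ L, z = ((a * b : ℕ) : ℤ) • y) := by
  set Lz : Submodule ℤ F := AddSubgroup.toIntSubmodule L with hLz
  have : Module.Finite ℤ Lz := by
    let g : 𝓞 F →ₗ[ℤ] F := (algebraMap (𝓞 F) F).toAddMonoidHom.toIntLinearMap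
    have h1 : (Lz.comap g).map g = Lz := by
      rw [Submodule.map_comap_eq, inf_eq_right]
      intro z hz
      obtain ⟨y, hy⟩ := hR hz
      exact ⟨y, hy⟩
    rw [← h1]
    infer_instance
  have : Module.IsTorsionFree ℤ Lz := inferInstance
  have key : ∀ W : Submodule K F, Module.finrank ℤ ((W.restrictScalars ℤ).comap Lz.subtype) =
      Module.finrank ℚ K * Module.finrank K W := by
    intro W
    rw [← mk_rankS K F L hi0 W, ← Submodule.finrank_map_subtype_eq Lz,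
      Submodule.map_comap_subtype]
  have sat : ∀ W : Submodule K F, ∀ (n : ℤ) (x : Lz), n ≠ 0 →
      n • x ∈ (W.restrictScalars ℤ).comap Lz.subtype →
      x ∈ (W.restrictScalars ℤ).comap Lz.subtype := by
    intro W n x hn hx
    rw [Submodule.mem_comap] at hx ⊢
    have hn' : (n : K) ≠ 0 := by exact_mod_cast hn
    have h3 : (n : K) • (x : F) ∈ W := by
      rw [Int.cast_smul_eq_zsmul]
      exact hx
    have h4 := W.smul_mem (n : K)⁻¹ h3
    rw [smul_smul, inv_mul_cancel₀ hn', one_smul] at h4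
    exact h4
  obtain ⟨M', hi, hi', hM2, hM1⟩ := mk_sub ((W1.restrictScalars ℤ).comap Lz.subtype)
    ((W2.restrictScalars ℤ).comap Lz.subtype) (Submodule.comap_mono fun z hz => h12 hz)
    (sat W1) (sat W2) (Module.finrank ℚ K) (by rw [key, h1, mul_one])
    (by rw [key, h2, mul_comm]) a b ha hb
  have hrel : (M'.map Lz.subtype.toAddMonoidHom).relIndex
      L = M'.index := by
    have e1 : L =
        (⊤ : AddSubgroup Lz).map Lz.subtype.toAddMonoidHom := by
      ext z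
      rw [AddSubgroup.mem_map]
      constructor
      · intro hz
        exact ⟨⟨z, hz⟩, AddSubgroup.mem_top _, rfl⟩
      · rintro ⟨y, -, rfl⟩
        exact y.2
    rw [e1, AddSubgroup.relIndex_map_map_of_injective _ _ Subtype.val_injective,
      AddSubgroup.relIndex_top_right]
  refine ⟨M'.map Lz.subtype.toAddMonoidHom, ?_, ?_, ?_, ?_, ?_⟩
  · intro z hz
    obtain ⟨y, -, rfl⟩ := AddSubgroup.mem_map.mp hz
    exact y.2
  · rw [hrel]; exact hi
  · rw [hrel]; exact hi'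
  · intro z hz hW
    obtain ⟨y, hy, rfl⟩ := AddSubgroup.mem_map.mp hz
    obtain ⟨t, ht⟩ := hM2 y hy hW
    exact ⟨t, t.2, by rw [ht]; rfl⟩
  · intro z hz hW
    obtain ⟨y, hy, rfl⟩ := AddSubgroup.mem_map.mp hz
    obtain ⟨t, ht⟩ := hM1 y hy hW
    exact ⟨t, t.2, by rw [ht]; rfl⟩

private theorem floor_pair {m l : ℝ} (hm : 0 < m) (hml : m ≤ l) :
    ∃ a : ℕ, a ≠ 0 ∧ (a : ℝ) * m ≤ l ∧ l < 2 * (a * m) := by
  have h1 : 1 ≤ l / m := by
    rw [le_div_iff₀ hm]
    linarith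
  have h2 : 1 ≤ ⌊l / m⌋₊ := Nat.le_floor (by simpa using h1)
  have h3 : ((⌊l / m⌋₊ : ℕ) : ℝ) ≤ l / m := Nat.floor_le (by positivity)
  have h4 : l / m < (⌊l / m⌋₊ : ℕ) + 1 := Nat.lt_floor_add_one _
  have h5 : (1 : ℝ) ≤ (⌊l / m⌋₊ : ℕ) := by exact_mod_cast h2
  refine ⟨⌊l / m⌋₊, by omega, ?_, ?_⟩
  · rwa [le_div_iff₀ hm] at h3
  · rw [div_lt_iff₀ hm] at h4
    nlinarith

theorem mink_sub (K : Type) [Field K] [NumberField K] : ∃ C : ℝ, 1 ≤ C ∧ ∀ (F : Type) [Field F] [NumberField F] [Algebra K F],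
    Module.finrank K F = 3 → ∀ R : AddSubgroup F, R ≤ OFA F → R.relIndex (OFA F) ≠ 0 → ∃ (x : Fin 3 → F) (l : Fin 3 → ℝ),
      LinearIndependent K x ∧ (∀ i, x i ∈ R) ∧ 0 < l 0 ∧ l 0 ≤ l 1 ∧ l 1 ≤ l 2 ∧ (∀ i (φ : F →+* ℂ), ‖φ (x i)‖ ≤ l i) ∧
      (l 0 * l 1 * l 2) ^ Module.finrank ℚ K ≤ C * Real.sqrt |(NumberField.discr F : ℝ)| * (R.relIndex (OFA F) : ℝ) := by
  classical
  have hd0 : 0 < Module.finrank ℚ K := Module.finrank_pos
  set d := Module.finrank ℚ K with hd
  refine ⟨(8 : ℝ) ^ (3 * d), one_le_pow₀ (by norm_num), ?_⟩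
  intro F _ _ _ hF L hR hi0
  obtain ⟨w, hwd⟩ : ∃ w : (F →+* ℂ) → ℝ, w = fun _ => 1 := ⟨_, rfl⟩
  have hw : ∀ φ, 0 < w φ := fun φ => by rw [hwd]; exact one_pos
  have hc : ∀ φ, w (ComplexEmbedding.conjugate φ) = w φ := fun φ => by rw [hwd]
  obtain ⟨x, l, hind, hxL, hl0, hl01, hl12, hx, hmin⟩ := mk_minS K F hF w hw L hR hi0
  refine ⟨x, l, hind, hxL, hl0, hl01, hl12, fun i φ => by
    have h := hx i φ
    rwa [hwd, one_mul] at h, ?_⟩
  have hl1 : 0 < l 1 := lt_of_lt_of_le hl0 hl01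
  have hl2 : 0 < l 2 := lt_of_lt_of_le hl1 hl12
  have hdF : Module.finrank ℚ F = 3 * d := by
    rw [← Module.finrank_mul_finrank ℚ K F, hF, mul_comm]
  have hx0 : x 0 ≠ 0 := hind.ne_zero 0
  have hx01 : LinearIndependent K ![x 0, x 1] := by
    have := hind.comp (Fin.castSucc : Fin 2 → Fin 3) (Fin.castSucc_injective 2)
    have e : x ∘ (Fin.castSucc : Fin 2 → Fin 3) = ![x 0, x 1] := by
      funext i
      fin_cases i <;> rfl
    rwa [e] at this
  have hW1 : Module.finrank K (Submodule.span K ({x 0} : Set F)) = 1 := finrank_span_singleton hx0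
  have hW2 : Module.finrank K (Submodule.span K ({x 0, x 1} : Set F)) = 2 := by
    have h := finrank_span_eq_card hx01
    have e : Set.range ![x 0, x 1] = {x 0, x 1} := by
      ext t
      simp [or_comm]
    rw [e, Fintype.card_fin] at h
    exact h
  obtain ⟨a, ha1, haU, haL⟩ : ∃ a : ℕ, a ≠ 0 ∧ (a : ℝ) * l 1 ≤ l 2 ∧ l 2 < 2 * (a * l 1) :=
    floor_pair hl1 hl12
  obtain ⟨b, hb1, hbU, hbL⟩ : ∃ b : ℕ, b ≠ 0 ∧ (b : ℝ) * (a * l 0) ≤ l 2 ∧
      l 2 < 2 * (b * (a * l 0)) := by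
    refine floor_pair ?_ ?_
    · have : (0 : ℝ) < a := by exact_mod_cast Nat.pos_of_ne_zero ha1
      positivity
    · exact (mul_le_mul_of_nonneg_left hl01 (Nat.cast_nonneg a)).trans haU
  have ha0 : (0 : ℝ) < a := by exact_mod_cast Nat.pos_of_ne_zero ha1
  have hb0 : (0 : ℝ) < b := by exact_mod_cast Nat.pos_of_ne_zero hb1
  obtain ⟨L', hLL, hi, hi', hM2, hM1⟩ := mk_latS K F L hR hi0 _ _
    (Submodule.span_mono (by simp : ({x 0} : Set F) ⊆ {x 0, x 1})) hW1 hW2 a b ha1 hb1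
  by_contra hcon
  push Not at hcon
  have hsz : ∀ (y : F) (n : ℕ) (φ : F →+* ℂ), ‖φ ((n : ℤ) • y)‖ = n * ‖φ y‖ := by
    intro y n φ
    rw [map_zsmul, zsmul_eq_mul, norm_mul]
    simp
  have hone : ((1 : FractionalIdeal (𝓞 F)⁰ F) : Submodule (𝓞 F) F).toAddSubgroup = OFA F := by
    ext z
    rw [mem_OFA]
    constructor
    · intro hz
      obtain ⟨y, hy⟩ := (FractionalIdeal.mem_one_iff (𝓞 F)⁰).1 (show z ∈ (1 : FractionalIdeal (𝓞 F)⁰ F) from hz)
      rw [← hy]
      exact y.isIntegral_coe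
    · intro hz
      exact (FractionalIdeal.mem_one_iff (𝓞 F)⁰).2 ⟨⟨z, hz⟩, rfl⟩
  have hrel : L'.relIndex (OFA F) = L'.relIndex L * L.relIndex (OFA F) :=
    (AddSubgroup.relIndex_mul_relIndex L' L (OFA F) (fun z hz => hLL z hz) hR).symm
  obtain ⟨z, hz, hz0, hzs⟩ := mk_box F w hw hc 1 one_ne_zero L'
    (fun z hz => (FractionalIdeal.mem_one_iff (𝓞 F)⁰).2 ⟨⟨z, (mem_OFA z).1 (hR (hLL z hz))⟩, rfl⟩)
    (by rw [hone, hrel]; exact mul_ne_zero hi hi0) (l 2 / 4) (by positivity) (by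
    rw [hone, FractionalIdeal.absNorm_one]
    set D : ℝ := Real.sqrt |(discr F : ℝ)| * (L.relIndex (OFA F) : ℝ) with hD
    have hD0 : 0 ≤ D := by positivity
    have s1 : ((L'.relIndex L : ℕ) : ℝ) ≤
        (a : ℝ) ^ (2 * d) * (b : ℝ) ^ d := by exact_mod_cast hi'
    have s2 : (a : ℝ) ^ (2 * d) * (b : ℝ) ^ d * (l 0 * l 1 * l 2) ^ d ≤ l 2 ^ (3 * d) := by
      calc (a : ℝ) ^ (2 * d) * (b : ℝ) ^ d * (l 0 * l 1 * l 2) ^ d
          = ((a * l 1) * (b * (a * l 0)) * l 2) ^ d := by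
            rw [pow_mul, ← mul_pow, ← mul_pow]
            congr 1
            ring
        _ ≤ (l 2 * l 2 * l 2) ^ d := by gcongr
        _ = l 2 ^ (3 * d) := by
            rw [pow_mul]
            congr 1
            ring
    have s3 : (8 : ℝ) ^ (3 * d) * D < (l 0 * l 1 * l 2) ^ d := by
      refine lt_of_eq_of_lt ?_ hcon
      rw [hD]
      ring
    have s4 : (2 : ℝ) ^ (3 * d) * 4 ^ (3 * d) = 8 ^ (3 * d) := by
      rw [← mul_pow]
      norm_num
    rw [hdF, div_pow, lt_div_iff₀ (by positivity)]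
    have s5 : (0 : ℝ) < (a : ℝ) ^ (2 * d) * (b : ℝ) ^ d := by positivity
    calc _ = ((L'.relIndex L : ℕ) : ℝ) *
          (8 ^ (3 * d) * D) := by
          rw [← s4, hrel, hwd, Finset.prod_const_one, hD]
          push_cast
          ring
      _ ≤ ((a : ℝ) ^ (2 * d) * (b : ℝ) ^ d) * (8 ^ (3 * d) * D) := by gcongr
      _ < ((a : ℝ) ^ (2 * d) * (b : ℝ) ^ d) * (l 0 * l 1 * l 2) ^ d := by gcongr
      _ ≤ _ := s2)
  by_cases hz2 : z ∈ Submodule.span K ({x 0, x 1} : Set F)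
  · by_cases hz1 : z ∈ Submodule.span K ({x 0} : Set F)
    · obtain ⟨y, hy, rfl⟩ := hM1 z hz hz1
      have hy0 : y ≠ 0 := by
        rintro rfl
        exact hz0 (smul_zero _)
      have h5 := (hmin y hy (l 2 / 4 / ((a * b : ℕ) : ℝ)) (fun φ => by
        have h6 := hzs φ
        rw [hsz] at h6
        rw [le_div_iff₀ (by positivity)]
        linarith)).1 hy0
      rw [le_div_iff₀ (by positivity)] at h5
      push_cast at h5
      nlinarith
    · obtain ⟨y, hy, rfl⟩ := hM2 z hz hz2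
      have hy1 : y ∉ Submodule.span K ({x 0} : Set F) := fun h => hz1 (by
        rw [← Int.cast_smul_eq_zsmul K]
        exact Submodule.smul_mem _ _ h)
      have h5 := (hmin y hy (l 2 / 4 / (a : ℝ)) (fun φ => by
        have h6 := hzs φ
        rw [hsz] at h6
        rw [le_div_iff₀ (by positivity)]
        linarith)).2.1 hy1
      rw [le_div_iff₀ (by positivity)] at h5
      nlinarith
  · have h5 := (hmin z (hLL z hz) (l 2 / 4) hzs).2.2 hz2
    linarith

end H88.SO
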