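import Pool.Agent.H97.SXM.Defs
import Pool.Agent.H88.SO.MkS

/-!
# [H88 SO IX] Orders: the subgroup of the integers, indices (90 min)

`o : Od K` (`H97/SXM/Defs.lean`), `c = o.c`, `M = o.M`, `d = 3` over `K` (`c.deg`). Frames and lattices: `H77/MF/Exp.lean` (may be used although not proved yet).
`od_all`: for a Levi frame `w` of `c` the elements `1, w 0, w 1` are a `K`-basis (`lv_ind`), so every `x` is `k + lin w v`; `x ∈ M` iff `v ∈ pre w M` (`hK`). Change of the frame: `w i = lin w' (v i) + k i`, `dt (v 0) (v 1) ≠ 0`; `pre w M = {x | cb (v 0) (v 1) x ∈ pre w' M}`; `f = (dt)⁻¹ • pull f' (v 0) (v 1)` (`lv_pull`, `lv_uniq`);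
`pull f x y = (dt)⁻¹ • pull f' (cb x) (cb y)` and `DL (pre w M) = (dt)⁻¹ DL (pre w' M)` (`dt (cb x) (cb y) = dt v dt x y`): so `f ∈ VL (pre w M)`, and `Lt (pre w M)` (isomorphic lattice), for every frame, from `o.hO`.
`od_le`: `f ∈ VL (pre w M)` gives `pre w M ≤ LF w` (`lf_max`), so `x = k + lin w v ∈ M` has `v ∈ LF w`: `x ∈ KO c`.
`od_fin`: the index of `M` in `KO c` is not 0: `v ↦ lin w v` induces `LF w / pre w M ≅ KO c / M`, both lattices are finitely generated of rank 2 (`lf_lt`): some `N ≠ 0` has `N LF w ≤ pre w M`, and `LF w / N LF w` is finite (finitely generated, killed by `N`).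
`od_R`: `R = M ⊓ 𝓞 F` (as subgroups); `𝓞 F → KO c / M` is surjective (`x ∈ KO c`: `k + x` integral, `k ∈ M`) with kernel `R`: the same index.
`od_ix`: `w i ∈ M` gives `OO K 2 ≤ pre w M ≤ LF w`; `ix (LF w) = ix (pre w M) * [LF w : pre w M]` (`relIndex_mul_relIndex`), `[LF w : pre w M] = [KO c : M]`; `disc_ix`: `nd f = c.D ix (LF w)² = o.D ix (pre w M)²`.
-/

set_option autoImplicit false

open scoped NumberField Classical
open IsDedekindDomain H38.ML H63.MA H67.SX H77.MF H97.SXM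

noncomputable section

namespace H88.SO

variable {K : IntermediateField ℚ QBar} [NumberField K]

section aux

variable {c : Cb K} {M : Submodule (𝓞 K) c.F}

private theorem lin_add' (w : Fin 2 → c.F) (v v' : Fin 2 → K) :
    lin w (v + v') = lin w v + lin w v' := by
  simp only [lin, Pi.add_apply, map_add]
  ring

private theorem uni {f : Fin 4 → K} {w : Fin 2 → c.F} (h : Lv f w) {k : K} {v : Fin 2 → K}
    (h0 : algebraMap K c.F k + lin w v = 0) : k = 0 ∧ v = 0 := by
  have h1 := Fintype.linearIndependent_iff.1 (lv_ind c.deg h) ![k, v 0, v 1] (by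
    rw [Fin.sum_univ_three]
    simp only [Matrix.cons_val_zero, Matrix.cons_val_one, Matrix.cons_val, Algebra.smul_def]
    rw [mul_one, add_assoc]
    exact h0)
  refine ⟨h1 0, ?_⟩
  funext i
  fin_cases i
  · exact h1 1
  · exact h1 2

private theorem dec {f : Fin 4 → K} {w : Fin 2 → c.F} (h : Lv f w) (x : c.F) :
    ∃ (k : K) (v : Fin 2 → K), x = algebraMap K c.F k + lin w v := by
  have h1 := lv_ind c.deg h
  have h2 : Submodule.span K (Set.range ![1, w 0, w 1]) = ⊤ :=
    h1.span_eq_top_of_card_eq_finrank (by rw [Fintype.card_fin, c.deg])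
  have h3 : x ∈ Submodule.span K (Set.range ![1, w 0, w 1]) := by
    rw [h2]
    exact Submodule.mem_top
  rw [Submodule.mem_span_range_iff_exists_fun] at h3
  obtain ⟨g, hg⟩ := h3
  refine ⟨g 0, ![g 1, g 2], ?_⟩
  rw [← hg, Fin.sum_univ_three]
  simp only [Matrix.cons_val_zero, Matrix.cons_val_one, Matrix.cons_val, Algebra.smul_def, lin,
    mul_one, add_assoc]

private theorem mem_iff (hK : ∀ k : K, algebraMap K c.F k ∈ M) (w : Fin 2 → c.F) (k : K)
    (v : Fin 2 → K) : algebraMap K c.F k + lin w v ∈ M ↔ v ∈ pre w M := by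
  have h1 : v ∈ pre w M ↔ lin w v ∈ M := Iff.rfl
  rw [h1]
  constructor
  · intro h
    have h2 := M.sub_mem h (hK k)
    rwa [add_sub_cancel_left] at h2
  · intro h
    exact M.add_mem (hK k) h

end aux

theorem od_mem (o : Od K) {f : Fin 4 → K} {w : Fin 2 → o.c.F} (h : Lv f w) (x : o.c.F) :
    x ∈ o.M ↔ ∃ (k : K) (v : Fin 2 → K), v ∈ pre w o.M ∧ x = algebraMap K o.c.F k + lin w v := by
  constructor
  · intro hx
    obtain ⟨k, v, hkv⟩ := dec h x
    refine ⟨k, v, ?_, hkv⟩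
    rw [hkv] at hx
    exact (mem_iff o.hK w k v).1 hx
  · rintro ⟨k, v, hv, rfl⟩
    exact (mem_iff o.hK w k v).2 hv

/-- every frame of the field is a frame of the order -/
theorem od_all (o : Od K) {f : Fin 4 → K} {w : Fin 2 → o.c.F} (h : Lv f w) : Lt (pre w o.M) ∧ f ∈ VL (pre w o.M) := by
  obtain ⟨f', w', h', hL', hV'⟩ := o.hO
  obtain ⟨k0, a, ha⟩ := dec h' (w 0)
  obtain ⟨k1, b, hb⟩ := dec h' (w 1)
  have hlin : ∀ x : Fin 2 → K, lin w x =
      algebraMap K o.c.F (x 0 * k0 + x 1 * k1) + lin w' (cb a b x) := by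
    intro x
    simp only [lin, cb] at ha hb ⊢
    rw [ha, hb]
    simp only [map_add, map_mul]
    ring
  have hcbl : ∀ x y : Fin 2 → K, dt (cb a b x) (cb a b y) = dt a b * dt x y := by
    intro x y
    simp only [H77.MF.dt, cb]
    ring
  have hdt : dt a b ≠ 0 := by
    intro h0
    have h1 : ∀ x : Fin 2 → K, cb a b x = 0 → x = 0 := by
      intro x hx
      have h2 := hlin x
      rw [hx] at h2
      have h3 : algebraMap K o.c.F (-(x 0 * k0 + x 1 * k1)) + lin w x = 0 := by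
        rw [h2]
        simp only [lin, Pi.zero_apply, map_zero, zero_mul, map_neg]
        ring
      exact (uni h h3).2
    by_cases hb0 : b 1 = 0
    · by_cases hb1 : b 0 = 0
      · have h2 := h1 ![0, 1] (by
          funext i
          fin_cases i
          · change (![0, 1] : Fin 2 → K) 0 * a 0 + (![0, 1] : Fin 2 → K) 1 * b 0 = 0
            simp [hb1]
          · change (![0, 1] : Fin 2 → K) 0 * a 1 + (![0, 1] : Fin 2 → K) 1 * b 1 = 0
            simp [hb0])
        have h3 := congrFun h2 1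
        simp at h3
      · have ha1 : a 1 = 0 := by
          have h5 : a 0 * b 1 - a 1 * b 0 = 0 := h0
          rw [hb0, mul_zero, zero_sub, neg_eq_zero] at h5
          exact (mul_eq_zero.1 h5).resolve_right hb1
        have h2 := h1 ![b 0, -a 0] (by
          funext i
          fin_cases i
          · change (![b 0, -a 0] : Fin 2 → K) 0 * a 0 + (![b 0, -a 0] : Fin 2 → K) 1 * b 0 = 0
            simp only [Matrix.cons_val_zero, Matrix.cons_val_one]
            ring
          · change (![b 0, -a 0] : Fin 2 → K) 0 * a 1 + (![b 0, -a 0] : Fin 2 → K) 1 * b 1 = 0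
            simp [hb0, ha1])
        exact hb1 (congrFun h2 0)
    · have h2 := h1 ![b 1, -a 1] (by
        funext i
        fin_cases i
        · change (![b 1, -a 1] : Fin 2 → K) 0 * a 0 + (![b 1, -a 1] : Fin 2 → K) 1 * b 0 = 0
          simp only [Matrix.cons_val_zero, Matrix.cons_val_one]
          have h5 : a 0 * b 1 - a 1 * b 0 = 0 := h0
          linear_combination h5
        · change (![b 1, -a 1] : Fin 2 → K) 0 * a 1 + (![b 1, -a 1] : Fin 2 → K) 1 * b 1 = 0
          simp only [Matrix.cons_val_zero, Matrix.cons_val_one]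
          ring)
      exact hb0 (congrFun h2 0)
  -- membership
  have hpre : ∀ x : Fin 2 → K, x ∈ pre w o.M ↔ cb a b x ∈ pre w' o.M := by
    intro x
    have h1 : x ∈ pre w o.M ↔ lin w x ∈ o.M := Iff.rfl
    rw [h1, hlin, mem_iff o.hK]
  -- the inverse
  let inv : (Fin 2 → K) → (Fin 2 → K) := fun y =>
    ![(dt a b)⁻¹ * (y 0 * b 1 - y 1 * b 0), (dt a b)⁻¹ * (a 0 * y 1 - a 1 * y 0)]
  have hinv1 : ∀ y, cb a b (inv y) = y := by
    intro y
    have h5 : a 0 * b 1 - a 1 * b 0 ≠ 0 := hdt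
    funext i
    fin_cases i
    · change (dt a b)⁻¹ * (y 0 * b 1 - y 1 * b 0) * a 0 +
        (dt a b)⁻¹ * (a 0 * y 1 - a 1 * y 0) * b 0 = y 0
      unfold H77.MF.dt
      field_simp
      ring
    · change (dt a b)⁻¹ * (y 0 * b 1 - y 1 * b 0) * a 1 +
        (dt a b)⁻¹ * (a 0 * y 1 - a 1 * y 0) * b 1 = y 1
      unfold H77.MF.dt
      field_simp
      ring
  have hinvmem : ∀ y ∈ pre w' o.M, inv y ∈ pre w o.M := by
    intro y hy
    rw [hpre, hinv1]
    exact hy
  have hf : f = (dt a b)⁻¹ • pull f' a b := by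
    obtain ⟨u, hu, k, hku0, hku1⟩ := lv_pull o.c.deg h' hdt
    have h1 := lv_uniq o.c.deg h hu (k := ![k 0 - k0, k 1 - k1]) (by
      intro i
      fin_cases i
      · change u 0 = w 0 + algebraMap K o.c.F (k 0 - k0)
        rw [hku0, ha, map_sub]
        ring
      · change u 1 = w 1 + algebraMap K o.c.F (k 1 - k1)
        rw [hku1, hb, map_sub]
        ring)
    exact h1.1.symm
  have hpull : ∀ x y : Fin 2 → K, pull f x y = (dt a b)⁻¹ • pull f' (cb a b x) (cb a b y) := by
    intro x y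
    rw [hf, pull_smul]
    congr 1
    funext i
    fin_cases i <;> simp [pull, ev, gr0, gr1, cb] <;> ring
  have hDL : ∀ z ∈ DL (pre w' o.M), (dt a b)⁻¹ * z ∈ DL (pre w o.M) := by
    intro z hz
    unfold DL at hz
    refine Submodule.span_induction ?_ ?_ ?_ ?_ hz
    · rintro x ⟨p, hp, q, hq, rfl⟩
      refine Submodule.subset_span ⟨inv p, hinvmem p hp, inv q, hinvmem q hq, ?_⟩
      have h1 := hcbl (inv p) (inv q)
      rw [hinv1, hinv1] at h1
      rw [h1, inv_mul_cancel_left₀ hdt]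
    · rw [mul_zero]
      exact Submodule.zero_mem _
    · intro x y _ _ hx hy
      rw [mul_add]
      exact Submodule.add_mem _ hx hy
    · intro r x _ hx
      rw [mul_smul_comm]
      exact Submodule.smul_mem _ r hx
  refine ⟨⟨?_, ?_⟩, ?_⟩
  · -- finitely generated
    let φ : (Fin 2 → K) →ₗ[𝓞 K] (Fin 2 → K) :=
      { toFun := inv
        map_add' := fun x y => by
          funext i
          fin_cases i
          · change (dt a b)⁻¹ * ((x 0 + y 0) * b 1 - (x 1 + y 1) * b 0) =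
              (dt a b)⁻¹ * (x 0 * b 1 - x 1 * b 0) + (dt a b)⁻¹ * (y 0 * b 1 - y 1 * b 0)
            ring
          · change (dt a b)⁻¹ * (a 0 * (x 1 + y 1) - a 1 * (x 0 + y 0)) =
              (dt a b)⁻¹ * (a 0 * x 1 - a 1 * x 0) + (dt a b)⁻¹ * (a 0 * y 1 - a 1 * y 0)
            ring
        map_smul' := fun r x => by
          have h1 : ∀ i, (r • x) i = (r : K) * x i := fun i => by
            rw [Pi.smul_apply, Algebra.smul_def]
          funext i
          fin_cases i
          · change (dt a b)⁻¹ * ((r • x) 0 * b 1 - (r • x) 1 * b 0) =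
              r • ((dt a b)⁻¹ * (x 0 * b 1 - x 1 * b 0))
            rw [h1, h1, Algebra.smul_def]
            ring
          · change (dt a b)⁻¹ * (a 0 * (r • x) 1 - a 1 * (r • x) 0) =
              r • ((dt a b)⁻¹ * (a 0 * x 1 - a 1 * x 0))
            rw [h1, h1, Algebra.smul_def]
            ring }
    have h1 : pre w o.M = (pre w' o.M).map φ := by
      ext x
      constructor
      · intro hx
        refine ⟨cb a b x, (hpre x).1 hx, ?_⟩
        change inv (cb a b x) = x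
        have h5 : a 0 * b 1 - a 1 * b 0 ≠ 0 := hdt
        funext i
        fin_cases i
        · change (dt a b)⁻¹ * ((x 0 * a 0 + x 1 * b 0) * b 1 - (x 0 * a 1 + x 1 * b 1) * b 0) = x 0
          unfold H77.MF.dt
          field_simp
          ring
        · change (dt a b)⁻¹ * (a 0 * (x 0 * a 1 + x 1 * b 1) - a 1 * (x 0 * a 0 + x 1 * b 0)) = x 1
          unfold H77.MF.dt
          field_simp
          ring
      · rintro ⟨y, hy, rfl⟩
        exact hinvmem y hy
    rw [h1]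
    exact hL'.1.map φ
  · obtain ⟨p, hp, q, hq, hpq⟩ := hL'.2
    refine ⟨inv p, hinvmem p hp, inv q, hinvmem q hq, fun h0 => hpq ?_⟩
    have h1 := hcbl (inv p) (inv q)
    rw [hinv1, hinv1, h0, mul_zero] at h1
    exact h1
  · intro x hx y hy i
    rw [hpull, Pi.smul_apply, smul_eq_mul]
    exact hDL _ (hV' _ ((hpre x).1 hx) _ ((hpre y).1 hy) i)

theorem od_le (o : Od K) : o.M ≤ KO o.c := by
  obtain ⟨f, w, h, hL, hV⟩ := o.hO
  intro x hx
  obtain ⟨k, v, hv, rfl⟩ := (od_mem o h x).1 hx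
  obtain ⟨k', hk'⟩ := lf_max o.c.deg h hL hV hv
  refine ⟨k' - k, ?_⟩
  have h1 : algebraMap K o.c.F (k' - k) + (algebraMap K o.c.F k + lin w v) =
      algebraMap K o.c.F k' + lin w v := by
    rw [map_sub]
    ring
  rw [h1]
  exact hk'

private theorem sup_KO (o : Od K) (A : AddSubgroup o.c.F)
    (hA : ∀ x ∈ KO o.c, ∃ k : K, algebraMap K o.c.F k + x ∈ A) (hA' : ∀ x ∈ A, x ∈ KO o.c) :
    o.M.toAddSubgroup ⊔ A = (KO o.c).toAddSubgroup := by
  apply le_antisymm
  · exact sup_le (fun x hx => od_le o hx) hA'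
  · intro x hx
    obtain ⟨k, hk⟩ := hA x hx
    rw [AddSubgroup.mem_sup]
    refine ⟨algebraMap K o.c.F (-k), o.hK _, _, hk, ?_⟩
    rw [map_neg]
    ring

private theorem rel_eq (o : Od K) :
    o.M.toAddSubgroup.relIndex (OFA o.c.F) = o.M.toAddSubgroup.relIndex (KO o.c).toAddSubgroup := by
  rw [← sup_KO o (OFA o.c.F), AddSubgroup.relIndex_sup_left]
  · rintro x ⟨k, hk⟩
    exact ⟨k, (mem_OFA _).2 hk⟩
  · intro x hx
    refine ⟨0, ?_⟩
    rw [map_zero, zero_add]
    exact (mem_OFA x).1 hx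

private theorem zmul (x : K) : ∃ n : ℤ, n ≠ 0 ∧ ∃ r : 𝓞 K, (r : K) = n * x := by
  have halg : IsAlgebraic ℤ x :=
    (IsFractionRing.isAlgebraic_iff ℤ ℚ K).mpr (Algebra.IsAlgebraic.isAlgebraic _)
  obtain ⟨n, hn, hint⟩ := halg.exists_integral_multiple
  refine ⟨n, hn, ⟨n • x, hint⟩, ?_⟩
  change n • x = _
  rw [zsmul_eq_mul]

private theorem tors (o : Od K) (y : o.c.F) : ∃ n : ℤ, n ≠ 0 ∧ n • y ∈ o.M := by
  obtain ⟨f, w, h, hL, hV⟩ := o.hO
  obtain ⟨k, v, rfl⟩ := dec h y
  obtain ⟨p, hp, q, hq, hpq⟩ := hL.2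
  obtain ⟨n, hn, r, hr⟩ := zmul ((dt p q)⁻¹ * (v 0 * q 1 - v 1 * q 0))
  obtain ⟨m, hm, s, hs⟩ := zmul ((dt p q)⁻¹ * (p 0 * v 1 - p 1 * v 0))
  have h5 : p 0 * q 1 - p 1 * q 0 ≠ 0 := hpq
  have h1 : lin w (fun i => ((n * m : ℤ) : K) * v i) ∈ o.M := by
    have h2 := (pre w o.M).add_mem ((pre w o.M).smul_mem ((m : 𝓞 K) * r) hp)
      ((pre w o.M).smul_mem ((n : 𝓞 K) * s) hq)
    have h3 : ((m : 𝓞 K) * r) • p + ((n : 𝓞 K) * s) • q = fun i => ((n * m : ℤ) : K) * v i := by
      have e1 : ∀ i, (((m : 𝓞 K) * r) • p) i = (m : K) * (r : K) * p i := fun i => by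
        rw [Pi.smul_apply, Algebra.smul_def]
        simp
      have e2 : ∀ i, (((n : 𝓞 K) * s) • q) i = (n : K) * (s : K) * q i := fun i => by
        rw [Pi.smul_apply, Algebra.smul_def]
        simp
      funext i
      rw [Pi.add_apply, e1, e2, hr, hs]
      unfold H77.MF.dt
      push_cast
      fin_cases i
      · change (m : K) * ((n : K) * ((p 0 * q 1 - p 1 * q 0)⁻¹ * (v 0 * q 1 - v 1 * q 0))) * p 0 +
          (n : K) * ((m : K) * ((p 0 * q 1 - p 1 * q 0)⁻¹ * (p 0 * v 1 - p 1 * v 0))) * q 0 =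
          (n : K) * (m : K) * v 0
        field_simp
        ring
      · change (m : K) * ((n : K) * ((p 0 * q 1 - p 1 * q 0)⁻¹ * (v 0 * q 1 - v 1 * q 0))) * p 1 +
          (n : K) * ((m : K) * ((p 0 * q 1 - p 1 * q 0)⁻¹ * (p 0 * v 1 - p 1 * v 0))) * q 1 =
          (n : K) * (m : K) * v 1
        field_simp
        ring
    rw [h3] at h2
    exact h2
  refine ⟨n * m, mul_ne_zero hn hm, ?_⟩
  have h2 : (n * m) • (algebraMap K o.c.F k + lin w v) =
      algebraMap K o.c.F ((n * m : ℤ) * k) + lin w (fun i => ((n * m : ℤ) : K) * v i) := by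
    rw [zsmul_eq_mul]
    simp only [lin, map_mul, map_intCast]
    ring
  rw [h2]
  exact o.M.add_mem (o.hK _) h1

theorem od_fin (o : Od K) : o.M.toAddSubgroup.relIndex (KO o.c).toAddSubgroup ≠ 0 := by
  rw [← rel_eq]
  have h0 : o.M.toAddSubgroup.relIndex (OFA o.c.F) =
      (o.M.toAddSubgroup.comap (algebraMap (𝓞 o.c.F) o.c.F).toAddMonoidHom).index := by
    rw [← AddSubgroup.relIndex_top_right, AddSubgroup.relIndex_comap]
    congr 1
    unfold OFA
    rw [AddMonoidHom.range_eq_map]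
  rw [h0]
  set R : AddSubgroup (𝓞 o.c.F) :=
    o.M.toAddSubgroup.comap (algebraMap (𝓞 o.c.F) o.c.F).toAddMonoidHom with hR
  have h1 : Finite (𝓞 o.c.F ⧸ (AddSubgroup.toIntSubmodule R)) := by
    refine Module.finite_of_fg_torsion _ ?_
    intro x
    obtain ⟨y, rfl⟩ := Submodule.Quotient.mk_surjective _ x
    obtain ⟨n, hn, hy⟩ := tors o (y : o.c.F)
    refine ⟨⟨n, mem_nonZeroDivisors_of_ne_zero hn⟩, ?_⟩
    change n • (Submodule.Quotient.mk y : 𝓞 o.c.F ⧸ (AddSubgroup.toIntSubmodule R)) = 0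
    rw [← Submodule.Quotient.mk_smul, Submodule.Quotient.mk_eq_zero]
    change algebraMap (𝓞 o.c.F) o.c.F (n • y) ∈ o.M
    rw [map_zsmul]
    exact hy
  have h2 : Finite (𝓞 o.c.F ⧸ R) := h1
  exact AddSubgroup.index_ne_zero_of_finite

theorem od_R (o : Od K) : ∃ R : AddSubgroup o.c.F, R ≤ OFA o.c.F ∧ (∀ x ∈ R, x ∈ o.M) ∧ (1 : o.c.F) ∈ R ∧
    R.relIndex (OFA o.c.F) = o.M.toAddSubgroup.relIndex (KO o.c).toAddSubgroup := by
  refine ⟨o.M.toAddSubgroup ⊓ OFA o.c.F, inf_le_right, fun x hx => hx.1, ⟨?_, ?_⟩, ?_⟩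
  · have h := o.hK 1
    rw [map_one] at h
    exact h
  · exact (mem_OFA _).2 isIntegral_one
  · rw [AddSubgroup.inf_relIndex_right, rel_eq]

theorem od_ix (o : Od K) {f : Fin 4 → K} {w : Fin 2 → o.c.F} (h : Lv f w) (hm : ∀ i, w i ∈ o.M) :
    OO K 2 ≤ pre w o.M ∧ 1 ≤ ix (pre w o.M) ∧ nd f = o.D * (ix (pre w o.M) : ℝ) ^ 2 := by
  obtain ⟨hL, hV⟩ := od_all o h
  have h1 : OO K 2 ≤ pre w o.M := by
    intro v hv
    obtain ⟨r, hr⟩ := hv 0
    obtain ⟨s, hs⟩ := hv 1
    have h2 := o.M.add_mem (o.M.smul_mem r (hm 0)) (o.M.smul_mem s (hm 1))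
    have h3 : r • w 0 + s • w 1 = lin w v := by
      unfold lin
      rw [← hr, ← hs, Algebra.smul_def, Algebra.smul_def]
      rfl
    change lin w v ∈ o.M
    rw [← h3]
    exact h2
  have h2 : pre w o.M ≤ LF w := lf_max o.c.deg h hL hV
  refine ⟨h1, ix_pos hL h1, ?_⟩
  have h3 := disc_ix o.c h (h1.trans h2)
  have h4 : ix (LF (K := K) w) = ix (pre w o.M) *
      o.M.toAddSubgroup.relIndex (KO o.c).toAddSubgroup := by
    unfold ix
    rw [← AddSubgroup.relIndex_mul_relIndex (OO K 2).toAddSubgroup (pre w o.M).toAddSubgroup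
      (LF (K := K) w).toAddSubgroup h1 h2]
    congr 1
    let φ : (Fin 2 → K) →+ o.c.F :=
      { toFun := lin w
        map_zero' := by simp [lin]
        map_add' := lin_add' w }
    have h5 : (pre w o.M).toAddSubgroup = o.M.toAddSubgroup.comap φ := by
      ext x
      exact Iff.rfl
    rw [h5, AddSubgroup.relIndex_comap,
      ← sup_KO o ((LF (K := K) w).toAddSubgroup.map φ), AddSubgroup.relIndex_sup_left]
    · intro x hx
      obtain ⟨k, v, rfl⟩ := dec h x
      obtain ⟨k', hk'⟩ := hx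
      refine ⟨-k, v, ⟨k' + k, ?_⟩, ?_⟩
      · rw [map_add, add_assoc]
        exact hk'
      · change lin w v = _
        rw [map_neg]
        ring
    · rintro x ⟨v, ⟨k, hk⟩, rfl⟩
      exact ⟨k, hk⟩
  unfold nd Od.D
  rw [← h3, h4]
  push_cast
  ring

end H88.SO
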