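import Pool.Agent.H97.SXM.Defs

/-!
# [H88 SO SZ] The sizes of the coefficients of the form of a frame (60 min)

`σ : K →+* ℂ`; make `ℂ` a `K`-algebra by `σ` (`letI := σ.toAlgebra`); there are three embeddings `τ : Fin 3 → (F →ₐ[K] ℂ)`, `τ` injective (`AlgHom.card`, `finrank K F = 3`, characteristic 0, `ℂ` algebraically closed); each `τ i` is a ring homomorphism `F →+* ℂ`. `lv_emb` (`H77/MF/Exp.lean`): with `A i j = τ j (w 0) - τ i (w 0)`,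
`B i j = τ j (w 1) - τ i (w 1)` (the same differences for `t 0`, `t 1`, because `τ (algebraMap k) = σ k`), `det = A 0 1 * B 0 2 - A 0 2 * B 0 1`: `σ (disc f) = det²`, and for all `v`: `σ (ev f v) det = (v0 A 0 1 + v1 B 0 1)(v0 A 0 2 + v1 B 0 2)(v0 A 1 2 + v1 B 1 2)`.
Take `v = ![1, 0], ![0, 1], ![1, 1], ![1, -1]` and solve: `σ (f 0) det = A A A`, `σ (f 3) det = B B B`, `σ (f 1) det = A01 A02 B12 + A01 B02 A12 + B01 A02 A12`, `σ (f 2) det = A01 B02 B12 + B01 A02 B12 + B01 B02 A12` (exact identities). `‖A‖ ≤ 2 T1`, `‖B‖ ≤ 2 T2`, `‖det‖ = √‖σ (disc f)‖`.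
-/

set_option autoImplicit false

open scoped NumberField Classical
open H77.MF

noncomputable section

namespace H88.SO

theorem lv_size {K F : Type} [Field K] [NumberField K] [Field F] [NumberField F] [Algebra K F] (hd : Module.finrank K F = 3)
    {f : Fin 4 → K} {w : Fin 2 → F} (h : Lv f w) {t : Fin 2 → F} {k : Fin 2 → K} (hk : ∀ i, w i = t i + algebraMap K F (k i))
    {T1 T2 : ℝ} (h1 : ∀ φ : F →+* ℂ, ‖φ (t 0)‖ ≤ T1) (h2 : ∀ φ : F →+* ℂ, ‖φ (t 1)‖ ≤ T2) (σ : K →+* ℂ) :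
    ‖σ (disc f)‖ ≤ 64 * (T1 * T2) ^ 2 ∧ ‖σ (f 0)‖ * Real.sqrt ‖σ (disc f)‖ ≤ 8 * T1 ^ 3 ∧
    ‖σ (f 1)‖ * Real.sqrt ‖σ (disc f)‖ ≤ 24 * (T1 ^ 2 * T2) ∧ ‖σ (f 2)‖ * Real.sqrt ‖σ (disc f)‖ ≤ 24 * (T1 * T2 ^ 2) ∧
    ‖σ (f 3)‖ * Real.sqrt ‖σ (disc f)‖ ≤ 8 * T2 ^ 3 := by
  letI : Algebra K ℂ := σ.toAlgebra
  have hσ : ∀ x : K, algebraMap K ℂ x = σ x := fun x => rfl
  haveI : FiniteDimensional K F := Module.finite_of_finrank_pos (by rw [hd]; norm_num)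
  have hcard : Fintype.card (F →ₐ[K] ℂ) = 3 := by rw [AlgHom.card, hd]
  obtain ⟨e⟩ : Nonempty (Fin 3 ≃ (F →ₐ[K] ℂ)) := by
    rw [← Fintype.card_eq, hcard, Fintype.card_fin]
  obtain ⟨hA, hC, hD, hE⟩ := lv_emb hd h (τ := e) e.injective
  rw [hσ] at hA hC hD
  have hT1 : 0 ≤ T1 := (norm_nonneg _).trans (h1 (e 0 : F →+* ℂ))
  have hT2 : 0 ≤ T2 := (norm_nonneg _).trans (h2 (e 0 : F →+* ℂ))
  -- the differences
  have hdf : ∀ (j : Fin 2) (a b : Fin 3), e a (w j) - e b (w j) = e a (t j) - e b (t j) := fun j a b => by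
    rw [hk j, map_add, map_add, AlgHom.commutes, AlgHom.commutes]
    ring
  obtain ⟨A1, hA1⟩ : ∃ x, x = e 1 (w 0) - e 0 (w 0) := ⟨_, rfl⟩
  obtain ⟨A2, hA2⟩ : ∃ x, x = e 2 (w 0) - e 0 (w 0) := ⟨_, rfl⟩
  obtain ⟨A3, hA3⟩ : ∃ x, x = e 2 (w 0) - e 1 (w 0) := ⟨_, rfl⟩
  obtain ⟨B1, hB1⟩ : ∃ x, x = e 1 (w 1) - e 0 (w 1) := ⟨_, rfl⟩
  obtain ⟨B2, hB2⟩ : ∃ x, x = e 2 (w 1) - e 0 (w 1) := ⟨_, rfl⟩
  obtain ⟨B3, hB3⟩ : ∃ x, x = e 2 (w 1) - e 1 (w 1) := ⟨_, rfl⟩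
  have nA : ∀ a b : Fin 3, ‖e a (w 0) - e b (w 0)‖ ≤ 2 * T1 := fun a b => by
    rw [hdf]
    have e1 := h1 (e a : F →+* ℂ)
    have e2 := h1 (e b : F →+* ℂ)
    refine (norm_sub_le _ _).trans ?_
    have e3 : ‖e a (t 0)‖ ≤ T1 := e1
    have e4 : ‖e b (t 0)‖ ≤ T1 := e2
    linarith
  have nB : ∀ a b : Fin 3, ‖e a (w 1) - e b (w 1)‖ ≤ 2 * T2 := fun a b => by
    rw [hdf]
    have e3 : ‖e a (t 1)‖ ≤ T2 := h2 (e a : F →+* ℂ)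
    have e4 : ‖e b (t 1)‖ ≤ T2 := h2 (e b : F →+* ℂ)
    refine (norm_sub_le _ _).trans ?_
    linarith
  have nA1 : ‖A1‖ ≤ 2 * T1 := hA1 ▸ nA 1 0
  have nA2 : ‖A2‖ ≤ 2 * T1 := hA2 ▸ nA 2 0
  have nA3 : ‖A3‖ ≤ 2 * T1 := hA3 ▸ nA 2 1
  have nB1 : ‖B1‖ ≤ 2 * T2 := hB1 ▸ nB 1 0
  have nB2 : ‖B2‖ ≤ 2 * T2 := hB2 ▸ nB 2 0
  have nB3 : ‖B3‖ ≤ 2 * T2 := hB3 ▸ nB 2 1
  obtain ⟨D, hDd⟩ : ∃ D, D = A1 * B2 - A2 * B1 := ⟨_, rfl⟩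
  have hD' : σ (disc f) = D ^ 2 := by
    rw [hDd, hA1, hA2, hB1, hB2]
    exact hD
  have hsq : Real.sqrt ‖σ (disc f)‖ = ‖D‖ := by
    rw [hD', norm_pow, Real.sqrt_sq (norm_nonneg _)]
  -- the values
  have hlin : ∀ (v : Fin 2 → K) (a b : Fin 3), e a (lin w v) - e b (lin w v) =
      σ (v 0) * (e a (w 0) - e b (w 0)) + σ (v 1) * (e a (w 1) - e b (w 1)) := fun v a b => by
    unfold lin
    rw [map_add, map_add, map_mul, map_mul, map_mul, map_mul, AlgHom.commutes, AlgHom.commutes, AlgHom.commutes, AlgHom.commutes, hσ, hσ]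
    ring
  have hval : ∀ v : Fin 2 → K, σ (ev f v) * D = (σ (v 0) * A1 + σ (v 1) * B1) * (σ (v 0) * A2 + σ (v 1) * B2) *
      (σ (v 0) * A3 + σ (v 1) * B3) := fun v => by
    have h3 := hE v
    rw [hσ, hlin, hlin, hlin, ← hA1, ← hA2, ← hA3, ← hB1, ← hB2, ← hB3, ← hDd] at h3
    exact h3
  have v0 := hval ![1, 0]
  have v1 := hval ![0, 1]
  have v2 := hval ![1, 1]
  have v3 := hval ![1, -1]
  simp only [ev, Matrix.cons_val_zero, Matrix.cons_val_one, map_one, map_zero, map_neg, map_add, map_mul, map_pow] at v0 v1 v2 v3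
  have f0 : σ (f 0) * D = A1 * A2 * A3 := by linear_combination v0
  have f3 : σ (f 3) * D = B1 * B2 * B3 := by linear_combination v1
  have f1 : σ (f 1) * D = A1 * A2 * B3 + A1 * B2 * A3 + B1 * A2 * A3 := by
    linear_combination (1 / 2 : ℂ) * v2 - (1 / 2 : ℂ) * v3 - v1
  have f2 : σ (f 2) * D = A1 * B2 * B3 + B1 * A2 * B3 + B1 * B2 * A3 := by
    linear_combination (1 / 2 : ℂ) * v2 + (1 / 2 : ℂ) * v3 - v0
  have m3 : ∀ {x y z : ℂ} {a b c : ℝ}, 0 ≤ a → 0 ≤ b → ‖x‖ ≤ a → ‖y‖ ≤ b → ‖z‖ ≤ c → ‖x * y * z‖ ≤ a * b * c := by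
    intro x y z a b c ha hb hx hy hz
    rw [norm_mul, norm_mul]
    have hxy : ‖x‖ * ‖y‖ ≤ a * b := mul_le_mul hx hy (norm_nonneg _) ha
    exact mul_le_mul hxy hz (norm_nonneg _) (by positivity)
  have p1 : 0 ≤ 2 * T1 := by positivity
  have p2 : 0 ≤ 2 * T2 := by positivity
  refine ⟨?_, ?_, ?_, ?_, ?_⟩
  · rw [hD', norm_pow]
    have h3 : ‖D‖ ≤ 8 * (T1 * T2) := by
      rw [hDd]
      refine (norm_sub_le _ _).trans ?_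
      rw [norm_mul, norm_mul]
      have h4 : ‖A1‖ * ‖B2‖ ≤ 2 * T1 * (2 * T2) := mul_le_mul nA1 nB2 (norm_nonneg _) p1
      have h5 : ‖A2‖ * ‖B1‖ ≤ 2 * T1 * (2 * T2) := mul_le_mul nA2 nB1 (norm_nonneg _) p1
      linarith
    calc ‖D‖ ^ 2 ≤ (8 * (T1 * T2)) ^ 2 := pow_le_pow_left₀ (norm_nonneg _) h3 2
      _ = 64 * (T1 * T2) ^ 2 := by ring
  · rw [hsq, ← norm_mul, f0]
    refine (m3 p1 p1 nA1 nA2 nA3).trans (le_of_eq (by ring))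
  · rw [hsq, ← norm_mul, f1]
    refine (norm_add_le _ _).trans ?_
    have h3 := norm_add_le (A1 * A2 * B3) (A1 * B2 * A3)
    have h4 := m3 p1 p1 nA1 nA2 nB3
    have h5 := m3 p1 p2 nA1 nB2 nA3
    have h6 := m3 p2 p1 nB1 nA2 nA3
    nlinarith
  · rw [hsq, ← norm_mul, f2]
    refine (norm_add_le _ _).trans ?_
    have h3 := norm_add_le (A1 * B2 * B3) (B1 * A2 * B3)
    have h4 := m3 p1 p2 nA1 nB2 nB3
    have h5 := m3 p2 p1 nB1 nA2 nB3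
    have h6 := m3 p2 p2 nB1 nB2 nA3
    nlinarith
  · rw [hsq, ← norm_mul, f3]
    refine (m3 p2 p2 nB1 nB2 nB3).trans (le_of_eq (by ring))

end H88.SO
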