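import Pool.Agent.H88.SO.TbS
import Pool.Agent.H88.SO.Ix
import Pool.Agent.H88.SO.Sz
import Pool.Agent.H88.SW.Itm

/-!
# [H88 SO REDF] Reduced frames of all orders (60 min)

`o : Od K`, `F = o.c.F`, `R` from `od_R`, `i` its index (not 0: `od_fin`), `t1, t2, T1, T2` from `tb_sub` (constant `κ₀`). `lv_ex` (`H77/MF/Exp.lean`) for `t = ![t1, t2]`: `f`, `w`, `w j = t j + k j`, `w j ∈ M` (`o.hK`, `R ⊆ M`). `|disc F| = c.D |disc K| ^ 3` (`H88.SW.dsc_eq` for the item `(c.F, 1)`; or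
`NumberField.natAbs_discr_eq_absNorm_differentIdeal_mul_natAbs_discr_pow`, see there), `o.D = c.D i ^ 2`: `(T1 T2) ^ (2 d) ≤ κ₁ o.D`. `od_ix`: `nd f = o.D ix²`, `ix ≥ 1`; `nd f = ∏ σ, ‖σ (disc f)‖` (`Algebra.norm_eq_prod_embeddings`) `≤ (64 (T1 T2)²) ^ d` (`lv_size`). So `ix² o.D ≤ 64 ^ d (T1 T2) ^ (2 d) ≤ 64 ^ d κ₁ o.D`: `ix ≤ κ`
(`o.D > 0`: `nd f ≠ 0`, `lv_disc`). Lower bound: `‖σ (disc f)‖ (64 (T1 T2)²) ^ (d - 1) ≥ nd f ≥ o.D ≥ (T1 T2) ^ (2 d) / κ₁`, so `(T1 T2)² ≤ κ ‖σ (disc f)‖`. Then `√‖σ (disc f)‖ ≥ T1 T2 / √κ`: `lv_size` gives `‖σ (f 0)‖ ≤ 8 √κ T1² / T2`, .., `‖σ (f 3)‖ ≤ 8 √κ T2² / T1`.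
-/

set_option autoImplicit false

open scoped NumberField Classical
open IsDedekindDomain H38.ML H63.MA H67.SX H77.MF H97.SXM

noncomputable section

namespace H88.SO

private theorem rf_prod_norm {F : Type} [Field F] [NumberField F] (x : F) :
    ∏ φ : F →+* ℂ, ‖φ x‖ = |((Algebra.norm ℚ x : ℚ) : ℝ)| := by
  have h := Algebra.norm_eq_prod_embeddings ℚ ℂ x
  have h2 : ‖(algebraMap ℚ ℂ) (Algebra.norm ℚ x)‖ = ∏ σ : F →ₐ[ℚ] ℂ, ‖σ x‖ := by
    rw [h, norm_prod]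
  have h3 : ∏ φ : F →+* ℂ, ‖φ x‖ = ∏ σ : F →ₐ[ℚ] ℂ, ‖σ x‖ :=
    Fintype.prod_equiv (RingHom.equivRatAlgHom F ℂ) _ _ (fun φ => rfl)
  rw [h3, ← h2, eq_ratCast, Complex.norm_ratCast]

private theorem rf_size {s r E T1 T2 X c : ℝ} (hE : 1 ≤ E) (h1 : 1 ≤ T1) (h2 : 1 ≤ T2) (hs : 0 ≤ s) (hr : 0 ≤ r)
    (hlo : (T1 * T2) ^ 2 ≤ E * r ^ 2) (h : s * r ≤ c * (T1 * T2) * X) (hX : 0 ≤ X) (hc : 0 ≤ c) : s ≤ c * E * X := by
  have h3 : T1 * T2 ≤ E * r := by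
    have h4 : (T1 * T2) ^ 2 ≤ (E * r) ^ 2 := by
      refine hlo.trans ?_
      rw [mul_pow]
      have h5 : E ≤ E ^ 2 := by nlinarith
      exact mul_le_mul_of_nonneg_right h5 (by positivity)
    exact (pow_le_pow_iff_left₀ (by positivity) (by positivity) two_ne_zero).1 h4
  have hr0 : 0 < r := by
    rcases hr.lt_or_eq with h5 | h5
    · exact h5
    · rw [← h5, mul_zero] at h3
      have : 0 < T1 * T2 := by positivity
      linarith
  have h4 : s * r ≤ (c * E * X) * r := by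
    refine h.trans ?_
    have h5 : c * (T1 * T2) * X ≤ c * (E * r) * X :=
      mul_le_mul_of_nonneg_right (mul_le_mul_of_nonneg_left h3 hc) hX
    linarith
  exact le_of_mul_le_mul_right h4 hr0

theorem red_frame (K : IntermediateField ℚ QBar) [NumberField K] : ∃ κ : ℝ, 1 ≤ κ ∧ ∀ o : Od K, ∃ (T₁ T₂ : ℝ) (f : Fin 4 → K) (w : Fin 2 → o.c.F),
    RF κ T₁ T₂ o f w := by
  obtain ⟨κ0, hκ0, hT⟩ := tb_sub K
  obtain ⟨d, hd⟩ : ∃ d, d = Module.finrank ℚ K := ⟨_, rfl⟩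
  have hd1 : 1 ≤ d := by
    rw [hd]
    exact Module.finrank_pos
  obtain ⟨δ, hδ⟩ : ∃ δ : ℝ, δ = |(NumberField.discr K : ℝ)| ^ 3 := ⟨_, rfl⟩
  have hδ1 : 1 ≤ δ := by
    rw [hδ]
    refine one_le_pow₀ ?_
    have h1 : (1 : ℤ) ≤ |NumberField.discr K| := Int.one_le_abs (NumberField.discr_ne_zero K)
    have h2 : ((1 : ℤ) : ℝ) ≤ ((|NumberField.discr K| : ℤ) : ℝ) := by exact_mod_cast h1
    rwa [Int.cast_one, Int.cast_abs] at h2
  obtain ⟨κ1, hκ1⟩ : ∃ κ1 : ℝ, κ1 = κ0 * δ := ⟨_, rfl⟩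
  have hκ11 : 1 ≤ κ1 := by rw [hκ1]; exact one_le_mul_of_one_le_of_one_le hκ0 hδ1
  obtain ⟨E, hE⟩ : ∃ E : ℝ, E = 64 ^ d * κ1 := ⟨_, rfl⟩
  have h64 : (1 : ℝ) ≤ 64 ^ d := one_le_pow₀ (by norm_num)
  have hE1 : 1 ≤ E := by rw [hE]; exact one_le_mul_of_one_le_of_one_le h64 hκ11
  refine ⟨64 * E, by linarith, fun o => ?_⟩
  obtain ⟨R, hR, hRM, hR1, hRi⟩ := od_R o
  obtain ⟨t1, t2, T1, T2, ht1, ht2, hli, hT1, hT12, hs1, hs2, hmin⟩ := hT o.c.F o.c.deg R hR (by rw [hRi]; exact od_fin o) hR1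
  have hT2 : 1 ≤ T2 := hT1.trans hT12
  obtain ⟨f, w, hw, k, hk⟩ := lv_ex o.c.deg (t := ![t1, t2]) hli
  have hwM : ∀ i, w i ∈ o.M := by
    intro i
    rw [hk i]
    refine o.M.add_mem ?_ (o.hK _)
    fin_cases i
    · exact hRM _ ht1
    · exact hRM _ ht2
  obtain ⟨hOO, hix, hnd⟩ := od_ix o hw hwM
  have hsz := fun σ : K →+* ℂ => lv_size o.c.deg hw (t := ![t1, t2]) hk (T1 := T1) (T2 := T2) hs1 hs2 σ
  obtain ⟨a, ha⟩ : ∃ a : ℝ, a = (T1 * T2) ^ 2 := ⟨_, rfl⟩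
  have ha0 : 0 < a := by rw [ha]; positivity
  -- the discriminant
  have hD : |(NumberField.discr o.c.F : ℝ)| = o.c.D * δ := by
    rw [hδ]
    exact H88.SW.dsc_eq (K := K) (o.c.F, (1 : QBar)) o.c.deg
  have hmin' : a ^ d ≤ κ1 * o.D := by
    have h1 : a ^ d = (T1 * T2) ^ (2 * Module.finrank ℚ K) := by rw [ha, hd, pow_mul]
    rw [h1]
    refine hmin.trans (le_of_eq ?_)
    rw [hD, hRi, hκ1]
    unfold Od.D
    ring
  have hprod : nd f = ∏ σ : K →+* ℂ, ‖σ (disc f)‖ := by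
    rw [rf_prod_norm]
    rfl
  have hcard : (Finset.univ : Finset (K →+* ℂ)).card = d := by
    rw [Finset.card_univ, NumberField.Embeddings.card K ℂ, hd]
  have hix1 : (1 : ℝ) ≤ (ix (pre w o.M) : ℝ) := by exact_mod_cast hix
  have hDn : 0 ≤ o.D := by
    have h1 : 0 < κ1 * o.D := lt_of_lt_of_le (by positivity) hmin'
    exact (pos_of_mul_pos_right h1 (by linarith)).le
  have hDpos : 0 < o.D := by
    have h1 : 0 < κ1 * o.D := lt_of_lt_of_le (by positivity) hmin'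
    exact pos_of_mul_pos_right h1 (by linarith)
  have hDnd : o.D ≤ nd f := by
    rw [hnd]
    have h2 : (1 : ℝ) ≤ (ix (pre w o.M) : ℝ) ^ 2 := one_le_pow₀ hix1
    nlinarith
  have hup : nd f ≤ (64 * a) ^ d := by
    rw [hprod, ← hcard, ← Finset.prod_const]
    refine Finset.prod_le_prod (fun σ _ => norm_nonneg _) fun σ _ => ?_
    rw [ha]
    exact (hsz σ).1
  have hlo : ∀ σ : K →+* ℂ, a ≤ E * ‖σ (disc f)‖ := by
    intro σ
    have h1 : nd f ≤ ‖σ (disc f)‖ * (64 * a) ^ (d - 1) := by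
      rw [hprod, ← Finset.mul_prod_erase Finset.univ _ (Finset.mem_univ σ)]
      refine mul_le_mul_of_nonneg_left ?_ (norm_nonneg _)
      have h2 : (Finset.univ.erase σ).card = d - 1 := by
        rw [Finset.card_erase_of_mem (Finset.mem_univ σ), hcard]
      rw [← h2, ← Finset.prod_const]
      refine Finset.prod_le_prod (fun σ _ => norm_nonneg _) fun σ _ => ?_
      rw [ha]
      exact (hsz σ).1
    have h3 : a ^ (d - 1) * a ≤ a ^ (d - 1) * (κ1 * 64 ^ (d - 1) * ‖σ (disc f)‖) := by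
      calc a ^ (d - 1) * a = a ^ d := by
            rw [← pow_succ]
            congr 1
            omega
        _ ≤ κ1 * o.D := hmin'
        _ ≤ κ1 * (‖σ (disc f)‖ * (64 * a) ^ (d - 1)) := mul_le_mul_of_nonneg_left (hDnd.trans h1) (by linarith)
        _ = a ^ (d - 1) * (κ1 * 64 ^ (d - 1) * ‖σ (disc f)‖) := by rw [mul_pow]; ring
    have h4 := le_of_mul_le_mul_left h3 (by positivity)
    refine h4.trans ?_
    rw [hE]
    refine mul_le_mul_of_nonneg_right ?_ (norm_nonneg _)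
    rw [mul_comm]
    exact mul_le_mul_of_nonneg_right (pow_le_pow_right₀ (by norm_num) (by omega)) (by linarith)
  have hrr : ∀ σ : K →+* ℂ, (T1 * T2) ^ 2 ≤ E * Real.sqrt ‖σ (disc f)‖ ^ 2 := fun σ => by
    rw [Real.sq_sqrt (norm_nonneg _), ← ha]
    exact hlo σ
  have hE0 : 0 ≤ E := by linarith
  have hq1 : 0 ≤ T1 ^ 2 / T2 := by positivity
  have hq2 : 0 ≤ T2 ^ 2 / T1 := by positivity
  have hT10 : T1 ≠ 0 := by positivity
  have hT20 : T2 ≠ 0 := by positivity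
  refine ⟨T1, T2, f, w, hw, hwM, ?_, ⟨hT1, hT12, fun σ => ?_, fun σ => ?_, fun σ => ?_, fun σ => ?_, fun σ => ?_, fun σ => ?_⟩⟩
  · have h1 : o.D * (ix (pre w o.M) : ℝ) ^ 2 ≤ o.D * E := by
      rw [← hnd]
      refine hup.trans ?_
      rw [mul_pow, hE]
      have h2 : (64 : ℝ) ^ d * a ^ d ≤ 64 ^ d * (κ1 * o.D) := mul_le_mul_of_nonneg_left hmin' (by positivity)
      linarith
    have h2 := le_of_mul_le_mul_left h1 hDpos
    nlinarith
  · have h := rf_size hE1 hT1 hT2 (norm_nonneg (σ (f 0))) (Real.sqrt_nonneg _) (hrr σ) (c := 8) (X := T1 ^ 2 / T2)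
      ((hsz σ).2.1.trans (le_of_eq (by field_simp))) hq1 (by norm_num)
    refine h.trans (mul_le_mul_of_nonneg_right (by linarith) hq1)
  · have h := rf_size hE1 hT1 hT2 (norm_nonneg (σ (f 1))) (Real.sqrt_nonneg _) (hrr σ) (c := 24) (X := T1)
      ((hsz σ).2.2.1.trans (le_of_eq (by ring))) (by linarith) (by norm_num)
    refine h.trans (mul_le_mul_of_nonneg_right (by linarith) (by linarith))
  · have h := rf_size hE1 hT1 hT2 (norm_nonneg (σ (f 2))) (Real.sqrt_nonneg _) (hrr σ) (c := 24) (X := T2)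
      ((hsz σ).2.2.2.1.trans (le_of_eq (by ring))) (by linarith) (by norm_num)
    refine h.trans (mul_le_mul_of_nonneg_right (by linarith) (by linarith))
  · have h := rf_size hE1 hT1 hT2 (norm_nonneg (σ (f 3))) (Real.sqrt_nonneg _) (hrr σ) (c := 8) (X := T2 ^ 2 / T1)
      ((hsz σ).2.2.2.2.trans (le_of_eq (by field_simp))) hq2 (by norm_num)
    refine h.trans (mul_le_mul_of_nonneg_right (by linarith) hq2)
  · have h1 := hlo σ
    rw [ha] at h1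
    refine h1.trans (mul_le_mul_of_nonneg_right (by linarith) (norm_nonneg _))
  · refine (hsz σ).1.trans (mul_le_mul_of_nonneg_right (by linarith) (by positivity))

end H88.SO
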