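import Pool.Agent.H88.SO.Cl
import Pool.Agent.H88.SO.RedF
import Pool.Agent.H88.SW.Dy

/-!
# [H88 SO MAIN] The number of the orders (60 min)

`od_cnt`: choose `T₁ o, T₂ o, f, w` with `Z T₁ ≤ T₂`. `(T₁ T₂) ^ (2 d) ≤ κ ^ d nd f = κ ^ d o.D ix² ≤ κ ^ (d + 2) Y` (`Red.lo` for all `σ`, product, `nd f = ∏ ‖σ (disc f)‖`; `od_ix`). Let `q = ⌊Z ^ d⌋₊ ≥ 1`, `Z ^ d ≤ 2 q`. Apply `H88.SW.dyO` (constants `κ ^ (d + 2)` and `C₁ = 2 ^ d · C₀` (see below)) to the set `O ×ˢ Finset.range q` (type `Od K × ℕ`) with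
`T1' = √Z T₁`, `T2' = T₂ / √Z`: `1 ≤ T1' ≤ T2'`, `T1' T2' = T₁ T₂`. Class: `t1 ≤ T1' ≤ 2 t1`, `t2 ≤ T2' ≤ 2 t2`; with `s1 = max 1 (t1 / √Z)`: `s1 ≤ T₁` and `T₁ ≤ 2 s1`; `s2 = √Z t2`, `s2 ≤ T₂ ≤ 2 s2`, `s1 ≤ s2`. If `t1 / √Z ≥ 1` then `od_cls` gives at most `C₀ ((s1 s2)² s1 / s2) ^ d = C₀ ((t1 t2)² (t1 / t2) / Z) ^ d` orders, times `q ≤ Z ^ d`: at most
`C₀ ((t1 t2)² (t1 / t2)) ^ d`. If `t1 / √Z < 1`: `s1 = 1 ≤ T₁ ≤ 2 t1 / √Z`, so `t1 / √Z ≥ 1/2`, `s1 ≤ 2 t1 / √Z`: the same with the factor `8 ^ d`. The projection of a subset `S'` to `Od K` has at least `S'.card / q` elements. `dyO` gives `O.card * q ≤ C₂ Y`.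
`od_finite`: with `Z = 1` and `red_frame`, every finite subset of `{o | o.D ≤ Y}` has at most `C Y` elements: `Set.Infinite.exists_subset_card_eq`.
-/

set_option autoImplicit false

open scoped NumberField Classical
open IsDedekindDomain H38.ML H63.MA H67.SX H77.MF H97.SXM

noncomputable section

namespace H88.SO

private theorem mn_prod_norm {F : Type} [Field F] [NumberField F] (x : F) :
    ∏ φ : F →+* ℂ, ‖φ x‖ = |((Algebra.norm ℚ x : ℚ) : ℝ)| := by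
  have h := Algebra.norm_eq_prod_embeddings ℚ ℂ x
  have h2 : ‖(algebraMap ℚ ℂ) (Algebra.norm ℚ x)‖ = ∏ σ : F →ₐ[ℚ] ℂ, ‖σ x‖ := by
    rw [h, norm_prod]
  have h3 : ∏ φ : F →+* ℂ, ‖φ x‖ = ∏ σ : F →ₐ[ℚ] ℂ, ‖σ x‖ :=
    Fintype.prod_equiv (RingHom.equivRatAlgHom F ℂ) _ _ (fun φ => rfl)
  rw [h3, ← h2, eq_ratCast, Complex.norm_ratCast]

/-- the sizes in terms of the bound for the discriminant -/
private theorem mn_size {K : IntermediateField ℚ QBar} [NumberField K] {κ Y T₁ T₂ : ℝ} (hκ : 1 ≤ κ)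
    (hY : 1 ≤ Y) {o : Od K} {f : Fin 4 → K} {w : Fin 2 → o.c.F} (h : RF κ T₁ T₂ o f w)
    (hD : o.D ≤ Y) :
    (T₁ * T₂) ^ (2 * Module.finrank ℚ K) ≤ κ ^ (Module.finrank ℚ K + 2) * Y := by
  have hcard : (Finset.univ : Finset (K →+* ℂ)).card = Module.finrank ℚ K := by
    rw [Finset.card_univ, NumberField.Embeddings.card K ℂ]
  have h1 : (T₁ * T₂) ^ (2 * Module.finrank ℚ K) ≤ κ ^ Module.finrank ℚ K * nd f := by
    have hnd : nd f = ∏ σ : K →+* ℂ, ‖σ (disc f)‖ := by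
      rw [mn_prod_norm]
      rfl
    rw [pow_mul, hnd, ← hcard, ← Finset.prod_const, ← Finset.prod_const, ← Finset.prod_mul_distrib]
    refine Finset.prod_le_prod (fun σ _ => by positivity) fun σ _ => h.red.lo σ
  obtain ⟨-, hix1, hnd⟩ := od_ix o h.lv h.mem
  have hix0 : (0 : ℝ) ≤ (ix (pre w o.M) : ℝ) := Nat.cast_nonneg _
  have hixκ := h.ix
  have h2 : nd f ≤ Y * κ ^ 2 := by
    rw [hnd]
    calc o.D * (ix (pre w o.M) : ℝ) ^ 2 ≤ Y * (ix (pre w o.M) : ℝ) ^ 2 :=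
          mul_le_mul_of_nonneg_right hD (by positivity)
      _ ≤ Y * κ ^ 2 := by gcongr
  calc (T₁ * T₂) ^ (2 * Module.finrank ℚ K) ≤ κ ^ Module.finrank ℚ K * nd f := h1
    _ ≤ κ ^ Module.finrank ℚ K * (Y * κ ^ 2) := by gcongr
    _ = κ ^ (Module.finrank ℚ K + 2) * Y := by
      rw [pow_add]
      ring

theorem od_cnt (K : IntermediateField ℚ QBar) [NumberField K] : ∀ κ : ℝ, 1 ≤ κ → ∃ C : ℝ, 1 ≤ C ∧ ∀ Y Z : ℝ, 1 ≤ Y → 1 ≤ Z → ∀ O : Finset (Od K),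
    (∀ o ∈ O, o.D ≤ Y ∧ ∃ (T₁ T₂ : ℝ) (f : Fin 4 → K) (w : Fin 2 → o.c.F), RF κ T₁ T₂ o f w ∧ Z * T₁ ≤ T₂) →
    (O.card : ℝ) ≤ C * Y / Z ^ Module.finrank ℚ K := by
  intro κ hκ
  obtain ⟨d, hd⟩ : ∃ d, d = Module.finrank ℚ K := ⟨_, rfl⟩
  have hd1 : 1 ≤ d := by
    rw [hd]
    exact Module.finrank_pos
  obtain ⟨C0, hC0, hcls⟩ := od_cls K κ hκ
  have hκd : 1 ≤ κ ^ (d + 2) := one_le_pow₀ hκ
  have hC1 : 0 < 8 ^ d * C0 := by positivity
  obtain ⟨C2, hC2, hdy⟩ := H88.SW.dyO hd1 hκd hC1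
  refine ⟨max 1 (2 * C2), le_max_left _ _, fun Y Z hY hZ O hO => ?_⟩
  rw [← hd]
  have hO' : ∀ o : Od K, ∃ T₁ T₂ : ℝ, o ∈ O → ∃ (f : Fin 4 → K) (w : Fin 2 → o.c.F),
      RF κ T₁ T₂ o f w ∧ Z * T₁ ≤ T₂ := by
    intro o
    by_cases h : o ∈ O
    · obtain ⟨-, T₁, T₂, f, w, h1⟩ := hO o h
      exact ⟨T₁, T₂, fun _ => ⟨f, w, h1⟩⟩
    · exact ⟨1, 1, fun h' => absurd h' h⟩
  choose T₁ T₂ hT using hO'
  obtain ⟨z, hz⟩ : ∃ z, z = Real.sqrt Z := ⟨_, rfl⟩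
  have hz1 : 1 ≤ z := by
    rw [hz]
    exact Real.one_le_sqrt.2 hZ
  have hz0 : 0 < z := by linarith
  have hzz : z * z = Z := by
    rw [hz]
    exact Real.mul_self_sqrt (by linarith)
  have hZd : 1 ≤ Z ^ d := one_le_pow₀ hZ
  obtain ⟨q, hq⟩ : ∃ q, q = ⌊Z ^ d⌋₊ := ⟨_, rfl⟩
  have hq1 : 1 ≤ q := by
    rw [hq]
    exact Nat.le_floor (by simpa using hZd)
  have hq1' : (1 : ℝ) ≤ q := by exact_mod_cast hq1
  have hqZ : (q : ℝ) ≤ Z ^ d := by
    rw [hq]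
    exact Nat.floor_le (by linarith)
  have hZq : Z ^ d ≤ 2 * q := by
    have h1 := Nat.lt_floor_add_one (Z ^ d)
    rw [← hq] at h1
    linarith
  have hmain := hdy Y hY (Od K × ℕ) (O ×ˢ Finset.range q) (fun x => z * T₁ x.1)
    (fun x => T₂ x.1 / z) ?_ ?_
  · rw [Finset.card_product, Finset.card_range] at hmain
    push_cast at hmain
    have hZpos : 0 < Z ^ d := by linarith
    rw [le_div_iff₀ hZpos]
    have h0 : (0 : ℝ) ≤ O.card := Nat.cast_nonneg _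
    have hY0 : 0 ≤ Y := by linarith
    calc (O.card : ℝ) * Z ^ d ≤ O.card * (2 * q) := mul_le_mul_of_nonneg_left hZq h0
      _ = 2 * (O.card * q) := by ring
      _ ≤ 2 * (C2 * Y) := by linarith
      _ = (2 * C2) * Y := by ring
      _ ≤ max 1 (2 * C2) * Y := mul_le_mul_of_nonneg_right (le_max_right _ _) hY0
  · rintro ⟨o, n⟩ hx
    rw [Finset.mem_product] at hx
    obtain ⟨f, w, hRF, hZT⟩ := hT o hx.1
    have h1 := hRF.red.one
    have h12 := hRF.red.le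
    refine ⟨?_, ?_, ?_⟩
    · exact one_le_mul_of_one_le_of_one_le hz1 h1
    · show z * T₁ o ≤ T₂ o / z
      rw [le_div_iff₀ hz0]
      calc z * T₁ o * z = (z * z) * T₁ o := by ring
        _ ≤ T₂ o := by rw [hzz]; exact hZT
    · show (z * T₁ o * (T₂ o / z)) ^ (2 * d) ≤ κ ^ (d + 2) * Y
      have e : z * T₁ o * (T₂ o / z) = T₁ o * T₂ o := by
        field_simp
      rw [e, hd]
      exact mn_size hκ hY hRF (hO o hx.1).1
  · intro t1 t2 ht1 ht12 S' hS' hcl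
    rcases S'.eq_empty_or_nonempty with hempty | ⟨x0, hx0⟩
    · rw [hempty]
      simp only [Finset.card_empty, Nat.cast_zero]
      have : 0 ≤ t1 / t2 := div_nonneg (by linarith) (by linarith)
      positivity
    · have ht2 : 1 ≤ t2 := ht1.trans ht12
      have ht10 : 0 < t1 := by linarith
      have ht20 : 0 < t2 := by linarith
      have hmem : ∀ x ∈ S', x.1 ∈ O := fun x hx => (Finset.mem_product.1 (hS' hx)).1
      have hhalf : 1 ≤ 2 * t1 / z := by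
        obtain ⟨f, w, hRF, -⟩ := hT x0.1 (hmem x0 hx0)
        have h1 := hRF.red.one
        have h2 := (hcl x0 hx0).2.1
        rw [le_div_iff₀ hz0, one_mul]
        have h3 : z * 1 ≤ z * T₁ x0.1 := mul_le_mul_of_nonneg_left h1 hz0.le
        linarith
      obtain ⟨s1, hs1⟩ : ∃ s1, s1 = max 1 (t1 / z) := ⟨_, rfl⟩
      obtain ⟨s2, hs2⟩ : ∃ s2, s2 = z * t2 := ⟨_, rfl⟩
      have hs11 : 1 ≤ s1 := by rw [hs1]; exact le_max_left _ _
      have hs12 : s1 ≤ s2 := by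
        rw [hs1, hs2]
        refine max_le (one_le_mul_of_one_le_of_one_le hz1 ht2) ?_
        rw [div_le_iff₀ hz0]
        have h1 : 1 ≤ z * z := one_le_mul_of_one_le_of_one_le hz1 hz1
        calc t1 ≤ t2 := ht12
          _ = t2 * 1 := (mul_one _).symm
          _ ≤ t2 * (z * z) := mul_le_mul_of_nonneg_left h1 ht20.le
          _ = z * t2 * z := by ring
      have hs1u : s1 ≤ 2 * t1 / z := by
        rw [hs1]
        refine max_le hhalf ?_
        gcongr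
        linarith
      have hcount := hcls s1 s2 hs11 hs12 (S'.image Prod.fst) (by
        intro o ho
        obtain ⟨x, hx, rfl⟩ := Finset.mem_image.1 ho
        obtain ⟨f, w, hRF, -⟩ := hT x.1 (hmem x hx)
        obtain ⟨h1, h2, h3, h4⟩ := hcl x hx
        refine ⟨T₁ x.1, T₂ x.1, f, w, hRF, ?_, ?_, ?_, ?_⟩
        · rw [hs1]
          refine max_le hRF.red.one ?_
          rw [div_le_iff₀ hz0]
          linarith
        · have h5 : t1 / z ≤ s1 := by rw [hs1]; exact le_max_right _ _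
          have h6 : T₁ x.1 ≤ 2 * (t1 / z) := by
            rw [← mul_div_assoc, le_div_iff₀ hz0]
            linarith
          linarith
        · rw [hs2]
          have h5 : t2 * z ≤ T₂ x.1 := (le_div_iff₀ hz0).1 h3
          linarith
        · rw [hs2]
          have h5 : T₂ x.1 ≤ 2 * t2 * z := (div_le_iff₀ hz0).1 h4
          linarith)
      rw [← hd] at hcount
      have hcard : (S'.card : ℝ) ≤ ((S'.image Prod.fst).card : ℝ) * q := by
        have h1 : S' ⊆ (S'.image Prod.fst) ×ˢ Finset.range q := by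
          intro x hx
          rw [Finset.mem_product]
          exact ⟨Finset.mem_image_of_mem _ hx, (Finset.mem_product.1 (hS' hx)).2⟩
        have h2 := Finset.card_le_card h1
        rw [Finset.card_product, Finset.card_range] at h2
        exact_mod_cast h2
      have hs20 : 0 < s2 := by rw [hs2]; positivity
      have hs10 : 0 < s1 := by linarith
      have hb : (s1 * s2) ^ 2 * (s1 / s2) ≤ 8 * ((t1 * t2) ^ 2 * (t1 / t2)) / Z := by
        have h1 : s1 * s2 ≤ 2 * (t1 * t2) := by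
          rw [hs2]
          calc s1 * (z * t2) ≤ (2 * t1 / z) * (z * t2) :=
                mul_le_mul_of_nonneg_right hs1u (by positivity)
            _ = 2 * (t1 * t2) := by field_simp
        have h2 : s1 / s2 ≤ 2 * (t1 / t2) / Z := by
          rw [hs2, div_le_iff₀ (by positivity)]
          calc s1 ≤ 2 * t1 / z := hs1u
            _ = 2 * (t1 / t2) / Z * (z * t2) := by
              rw [← hzz]
              field_simp
        calc (s1 * s2) ^ 2 * (s1 / s2) ≤ (2 * (t1 * t2)) ^ 2 * (2 * (t1 / t2) / Z) := by gcongr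
          _ = 8 * ((t1 * t2) ^ 2 * (t1 / t2)) / Z := by ring
      have hA0 : 0 ≤ (t1 * t2) ^ 2 * (t1 / t2) := by positivity
      have hZ0 : 0 < Z := by linarith
      calc (S'.card : ℝ) ≤ ((S'.image Prod.fst).card : ℝ) * q := hcard
        _ ≤ (C0 * ((s1 * s2) ^ 2 * (s1 / s2)) ^ d) * Z ^ d := by gcongr
        _ ≤ (C0 * (8 * ((t1 * t2) ^ 2 * (t1 / t2)) / Z) ^ d) * Z ^ d := by gcongr
        _ = 8 ^ d * C0 * ((t1 * t2) ^ 2 * (t1 / t2)) ^ d := by
          rw [div_pow, mul_pow]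
          field_simp

theorem od_finite (K : IntermediateField ℚ QBar) [NumberField K] (Y : ℝ) : {o : Od K | o.D ≤ Y}.Finite := by
  obtain ⟨κ, hκ, hf⟩ := red_frame K
  obtain ⟨C, hC, hc⟩ := od_cnt K κ hκ
  by_contra hinf
  obtain ⟨t, ht, htc⟩ := Set.Infinite.exists_subset_card_eq hinf (⌊C * max Y 1⌋₊ + 1)
  have h1 := hc (max Y 1) 1 (le_max_right _ _) le_rfl t (by
    intro o ho
    obtain ⟨T₁, T₂, f, w, hRF⟩ := hf o
    refine ⟨(ht ho : o.D ≤ Y).trans (le_max_left _ _), T₁, T₂, f, w, hRF, ?_⟩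
    rw [one_mul]
    exact hRF.red.le)
  rw [one_pow, div_one, htc] at h1
  have h2 := Nat.lt_floor_add_one (C * max Y 1)
  push_cast at h1
  linarith

end H88.SO
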