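import Pool.Agent.H97.SXM.Defs
import Pool.Agent.H88.SW.Cb

/-!
# [H88 SO BX] Forms in a box; translations (60 min)

`box_cnt`: `g = m • f` has integral coefficients (`OO`): `g : Fin 4 → 𝓞 K`, the map `f ↦ g` is injective (`m ≠ 0`). `g 0 ≠ 0`, so `1 ≤ m κ t1² / t2` (`H88.SW.one_le_bd`), and `1 ≤ m κ t1, m κ t2, m κ t2² / t1`. `H88.SW.ball_le` for each coefficient: `S.card ≤ C₀ ^ 4 ((m κ) ^ 4 (t1² / t2) t1 t2 (t2² / t1)) ^ d` (`S` maps injectively into the product of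
four finite sets: the images of `S` under the coordinates, `Fintype.card_piFinset` or `Finset.card_le_card` in a product).
`trf n f = pull f ![1, 0] ![n, 1] = ![a, b + 3 a n, c + 2 b n + 3 a n², d + c n + b n² + a n³]`. `tr_lv`: `lv_pull` with `v = ![1, 0]`, `v' = ![n, 1]`, `dt = 1`. `red_siz`: `(2 t1)² / t2`, `2 t1`, `2 t2`, `(2 t2)² / t1`. `tr_size`: triangle inequality, constants `4 κ`, `6 κ`, `4 κ`. `tr_ix`: `ix (pre u M) = ix (pre w M)`: `pre u M = {x | (x 0 + n x 1, x 1) ∈ pre w M}` (the constants are in `M`),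
the automorphism `x ↦ (x 0 + n x 1, x 1)` of `K²` preserves `𝓞²` (`n` integral): `relIndex` is invariant (`AddSubgroup.relIndex_map_map_of_injective` or `relIndex_comap`).
-/

set_option autoImplicit false

open scoped NumberField Classical
open H77.MF H97.SXM H88.A4

noncomputable section

namespace H88.SO

/-- the form after the translation of the second basis vector by `n` times the first -/
def trf {K : Type} [Field K] (n : K) (f : Fin 4 → K) : Fin 4 → K := pull f ![1, 0] ![n, 1]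

/-- the sizes of a form in the class `t1, t2` -/
def Siz {K : Type} [Field K] (κ t1 t2 : ℝ) (f : Fin 4 → K) : Prop :=
  ∀ σ : K →+* ℂ, ‖σ (f 0)‖ ≤ κ * (t1 ^ 2 / t2) ∧ ‖σ (f 1)‖ ≤ κ * t1 ∧ ‖σ (f 2)‖ ≤ κ * t2 ∧ ‖σ (f 3)‖ ≤ κ * (t2 ^ 2 / t1)

private theorem smul_oo {K : Type} [Field K] [NumberField K] (m : ℕ) {n : ℕ} {f : Fin n → K} (h : (m : 𝓞 K) • f ∈ OO K n) (j : Fin n) :
    ∃ a : 𝓞 K, (a : K) = (m : K) * f j := by
  obtain ⟨a, ha⟩ := h j
  refine ⟨a, ?_⟩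
  rw [ha, Pi.smul_apply, Algebra.smul_def, map_natCast]

theorem box_cnt (K : Type) [Field K] [NumberField K] (κ : ℝ) (hκ : 1 ≤ κ) (m : ℕ) (hm : m ≠ 0) : ∃ C : ℝ, 1 ≤ C ∧ ∀ t1 t2 : ℝ, 1 ≤ t1 → t1 ≤ t2 →
    ∀ S : Finset (Fin 4 → K), (∀ f ∈ S, (m : 𝓞 K) • f ∈ OO K 4 ∧ f 0 ≠ 0 ∧ Siz κ t1 t2 f) →
      (S.card : ℝ) ≤ C * ((t1 * t2) ^ 2) ^ Module.finrank ℚ K := by
  obtain ⟨C0, hC0, hb⟩ := H88.SW.ball_le K
  have hm1 : (1 : ℝ) ≤ m := by exact_mod_cast Nat.one_le_iff_ne_zero.2 hm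
  have hmκ : 1 ≤ (m : ℝ) * κ := one_le_mul_of_one_le_of_one_le hm1 hκ
  refine ⟨C0 ^ 4 * (((m : ℝ) * κ) ^ 4) ^ Module.finrank ℚ K, one_le_mul_of_one_le_of_one_le (one_le_pow₀ hC0) (one_le_pow₀ (one_le_pow₀ hmκ)), ?_⟩
  intro t1 t2 h1 h2 S hS
  have ht2 : 1 ≤ t2 := h1.trans h2
  rcases S.eq_empty_or_nonempty with hE | hE
  · rw [hE, Finset.card_empty, Nat.cast_zero]
    positivity
  obtain ⟨g, hg⟩ : ∃ g : (Fin 4 → K) → Fin 4 → 𝓞 K, ∀ f ∈ S, ∀ j, ((g f j : 𝓞 K) : K) = (m : K) * f j := by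
    refine ⟨fun f j => if h : ∃ a : 𝓞 K, (a : K) = (m : K) * f j then h.choose else 0, fun f hf j => ?_⟩
    have h3 := smul_oo m (hS f hf).1 j
    simp only [dif_pos h3]
    exact h3.choose_spec
  have hnorm : ∀ (f : Fin 4 → K), f ∈ S → ∀ (j : Fin 4) (σ : K →+* ℂ), ‖σ ((g f j : 𝓞 K) : K)‖ = (m : ℝ) * ‖σ (f j)‖ := fun f hf j σ => by
    rw [hg f hf j, map_mul, norm_mul, map_natCast, Complex.norm_natCast]
  obtain ⟨w, hw⟩ : ∃ w : Fin 4 → ℝ, w = ![(m : ℝ) * (κ * (t1 ^ 2 / t2)), (m : ℝ) * (κ * t1), (m : ℝ) * (κ * t2), (m : ℝ) * (κ * (t2 ^ 2 / t1))] := ⟨_, rfl⟩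
  have hbd : ∀ f ∈ S, ∀ j, Bd (w j) (g f j) := by
    intro f hf j σ
    rw [hnorm f hf j σ, hw]
    obtain ⟨a0, a1, a2, a3⟩ := (hS f hf).2.2 σ
    fin_cases j
    · exact mul_le_mul_of_nonneg_left a0 (by positivity)
    · exact mul_le_mul_of_nonneg_left a1 (by positivity)
    · exact mul_le_mul_of_nonneg_left a2 (by positivity)
    · exact mul_le_mul_of_nonneg_left a3 (by positivity)
  obtain ⟨f0, hf0⟩ := hE
  have hw0 : 1 ≤ w 0 := by
    refine H88.SW.one_le_bd (x := g f0 0) ?_ (hbd f0 hf0 0)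
    intro h3
    have h4 := hg f0 hf0 0
    rw [h3] at h4
    have h5 : (m : K) * f0 0 ≠ 0 := mul_ne_zero (by exact_mod_cast hm) (hS f0 hf0).2.1
    exact h5 (by rw [← h4]; rfl)
  have hle : t1 ^ 2 / t2 ≤ t1 := by
    rw [div_le_iff₀ (by linarith)]
    nlinarith
  have hle2 : t2 ≤ t2 ^ 2 / t1 := by
    rw [le_div_iff₀ (by linarith)]
    nlinarith
  have e0 : w 0 = (m : ℝ) * (κ * (t1 ^ 2 / t2)) := by rw [hw]; rfl
  have e1 : w 1 = (m : ℝ) * (κ * t1) := by rw [hw]; rfl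
  have e2 : w 2 = (m : ℝ) * (κ * t2) := by rw [hw]; rfl
  have e3 : w 3 = (m : ℝ) * (κ * (t2 ^ 2 / t1)) := by rw [hw]; rfl
  have hm0 : (0 : ℝ) ≤ m := by linarith
  have hκ0 : (0 : ℝ) ≤ κ := by linarith
  have hw1 : 1 ≤ w 1 := by
    rw [e0] at hw0
    rw [e1]
    exact hw0.trans (mul_le_mul_of_nonneg_left (mul_le_mul_of_nonneg_left hle hκ0) hm0)
  have hw2 : 1 ≤ w 2 := by
    rw [e1] at hw1
    rw [e2]
    exact hw1.trans (mul_le_mul_of_nonneg_left (mul_le_mul_of_nonneg_left h2 hκ0) hm0)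
  have hw3 : 1 ≤ w 3 := by
    rw [e2] at hw2
    rw [e3]
    exact hw2.trans (mul_le_mul_of_nonneg_left (mul_le_mul_of_nonneg_left hle2 hκ0) hm0)
  have hww : ∀ j, 1 ≤ w j := by
    intro j
    fin_cases j
    · exact hw0
    · exact hw1
    · exact hw2
    · exact hw3
  have hcard : S.card ≤ (Fintype.piFinset fun j => S.image (fun f => g f j)).card := by
    refine Finset.card_le_card_of_injOn (fun f j => g f j) ?_ ?_
    · intro f hf
      exact Fintype.mem_piFinset.2 fun j => Finset.mem_image_of_mem _ hf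
    · intro f hf f' hf' hff
      funext j
      have h3 : g f j = g f' j := congrFun hff j
      have h4 := hg f hf j
      rw [h3, hg f' hf' j] at h4
      exact (mul_left_cancel₀ (by exact_mod_cast hm) h4).symm
  have hcard2 : ∀ j, ((S.image (fun f => g f j)).card : ℝ) ≤ C0 * w j ^ Module.finrank ℚ K := by
    intro j
    refine hb (w j) (hww j) _ ?_
    intro x hx
    obtain ⟨f, hf, rfl⟩ := Finset.mem_image.1 hx
    exact hbd f hf j
  calc (S.card : ℝ) ≤ ((Fintype.piFinset fun j => S.image (fun f => g f j)).card : ℝ) := by exact_mod_cast hcard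
    _ = ∏ j, ((S.image (fun f => g f j)).card : ℝ) := by
        rw [Fintype.card_piFinset]
        push_cast
        rfl
    _ ≤ ∏ j, (C0 * w j ^ Module.finrank ℚ K) := Finset.prod_le_prod (fun j _ => by positivity) fun j _ => hcard2 j
    _ = C0 ^ 4 * (∏ j, w j) ^ Module.finrank ℚ K := by
        rw [Finset.prod_mul_distrib, Finset.prod_const, Finset.prod_pow]
        rfl
    _ = _ := by
        have h3 : ∏ j, w j = ((m : ℝ) * κ) ^ 4 * (t1 * t2) ^ 2 := by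
          rw [Fin.prod_univ_four, e0, e1, e2, e3]
          have ht10 : t1 ≠ 0 := by positivity
          have ht20 : t2 ≠ 0 := by positivity
          field_simp
        rw [h3, mul_pow, mul_assoc]

theorem red_siz {K : Type} [Field K] [NumberField K] {κ T₁ T₂ t1 t2 : ℝ} (hκ : 1 ≤ κ) (h1 : 1 ≤ t1) (h2 : t1 ≤ t2) {f : Fin 4 → K} (h : Red κ T₁ T₂ f)
    (ha : t1 ≤ T₁) (hb : T₁ ≤ 2 * t1) (hc : t2 ≤ T₂) (hd : T₂ ≤ 2 * t2) : Siz (4 * κ) t1 t2 f := by
  have ht1 : 0 < t1 := by linarith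
  have ht2 : 0 < t2 := by linarith
  have hT1 : 0 < T₁ := by linarith
  have hT2 : 0 < T₂ := by linarith
  have hκ0 : 0 ≤ κ := by linarith
  intro σ
  refine ⟨(h.s0 σ).trans ?_, (h.s1 σ).trans ?_, (h.s2 σ).trans ?_, (h.s3 σ).trans ?_⟩
  · have h3 : T₁ ^ 2 / T₂ ≤ (2 * t1) ^ 2 / t2 := div_le_div₀ (by positivity) (pow_le_pow_left₀ hT1.le hb 2) ht2 hc
    calc κ * (T₁ ^ 2 / T₂) ≤ κ * ((2 * t1) ^ 2 / t2) := mul_le_mul_of_nonneg_left h3 hκ0
      _ = 4 * κ * (t1 ^ 2 / t2) := by ring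
  · nlinarith
  · nlinarith
  · have h3 : T₂ ^ 2 / T₁ ≤ (2 * t2) ^ 2 / t1 := div_le_div₀ (by positivity) (pow_le_pow_left₀ hT2.le hd 2) ht1 ha
    calc κ * (T₂ ^ 2 / T₁) ≤ κ * ((2 * t2) ^ 2 / t1) := mul_le_mul_of_nonneg_left h3 hκ0
      _ = 4 * κ * (t2 ^ 2 / t1) := by ring

theorem tr_size {K : Type} [Field K] [NumberField K] {κ t1 t2 : ℝ} (hκ : 1 ≤ κ) (h1 : 1 ≤ t1) (h2 : t1 ≤ t2) {f : Fin 4 → K} (h : Siz κ t1 t2 f)
    {n : 𝓞 K} (hn : Bd (t2 / t1) n) : Siz (9 * κ) t1 t2 (trf (n : K) f) ∧ trf (n : K) f 0 = f 0 := by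
  have hc0 : trf (n : K) f 0 = f 0 := by simp [trf, pull, ev]
  have hc1 : trf (n : K) f 1 = f 1 + 3 * (n : K) * f 0 := by
    simp [trf, pull, gr0, gr1]
    ring
  have hc2 : trf (n : K) f 2 = f 2 + 2 * (n : K) * f 1 + 3 * (n : K) ^ 2 * f 0 := by
    simp [trf, pull, gr0, gr1]
    ring
  have hc3 : trf (n : K) f 3 = f 3 + (n : K) * f 2 + (n : K) ^ 2 * f 1 + (n : K) ^ 3 * f 0 := by
    simp [trf, pull, ev]
    ring
  refine ⟨fun σ => ?_, hc0⟩
  have ht1 : 0 < t1 := by linarith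
  have ht2 : 0 < t2 := by linarith
  obtain ⟨a0, a1, a2, a3⟩ := h σ
  have hN := hn σ
  obtain ⟨ν, hν⟩ : ∃ ν, ν = t2 / t1 := ⟨_, rfl⟩
  obtain ⟨x, hx⟩ : ∃ x, x = κ * (t1 ^ 2 / t2) := ⟨_, rfl⟩
  have hν0 : 0 ≤ ν := by rw [hν]; positivity
  have hx0 : 0 ≤ x := by rw [hx]; positivity
  have e1 : κ * t1 = x * ν := by rw [hx, hν]; field_simp
  have e2 : κ * t2 = x * ν ^ 2 := by rw [hx, hν]; field_simp
  have e3 : κ * (t2 ^ 2 / t1) = x * ν ^ 3 := by rw [hx, hν]; field_simp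
  rw [← hν] at hN
  rw [← hx] at a0
  rw [e1] at a1
  rw [e2] at a2
  rw [e3] at a3
  have g1 : 9 * κ * (t1 ^ 2 / t2) = 9 * x := by rw [hx]; ring
  have g2 : 9 * κ * t1 = 9 * (x * ν) := by rw [← e1]; ring
  have g3 : 9 * κ * t2 = 9 * (x * ν ^ 2) := by rw [← e2]; ring
  have g4 : 9 * κ * (t2 ^ 2 / t1) = 9 * (x * ν ^ 3) := by rw [← e3]; ring
  rw [g1, g2, g3, g4, hc0, hc1, hc2, hc3]
  obtain ⟨N, hNd⟩ : ∃ N, N = ‖σ (n : K)‖ := ⟨_, rfl⟩
  obtain ⟨A, hA⟩ : ∃ A, A = ‖σ (f 0)‖ := ⟨_, rfl⟩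
  obtain ⟨B, hB⟩ : ∃ B, B = ‖σ (f 1)‖ := ⟨_, rfl⟩
  obtain ⟨C, hC⟩ : ∃ C, C = ‖σ (f 2)‖ := ⟨_, rfl⟩
  have hNn : 0 ≤ N := by rw [hNd]; exact norm_nonneg _
  have hAn : 0 ≤ A := by rw [hA]; exact norm_nonneg _
  have hBn : 0 ≤ B := by rw [hB]; exact norm_nonneg _
  have hCn : 0 ≤ C := by rw [hC]; exact norm_nonneg _
  rw [← hNd] at hN
  rw [← hA] at a0
  rw [← hB] at a1
  rw [← hC] at a2
  have n3 : ‖(3 : ℂ)‖ = 3 := by simp
  have n2 : ‖(2 : ℂ)‖ = 2 := by simp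
  have m1 : N * A ≤ ν * x := mul_le_mul hN a0 hAn hν0
  have m2 : N * B ≤ ν * (x * ν) := mul_le_mul hN a1 hBn hν0
  have m3 : N * C ≤ ν * (x * ν ^ 2) := mul_le_mul hN a2 hCn hν0
  have q2 : N ^ 2 ≤ ν ^ 2 := pow_le_pow_left₀ hNn hN 2
  have q3 : N ^ 3 ≤ ν ^ 3 := pow_le_pow_left₀ hNn hN 3
  have m4 : N ^ 2 * A ≤ ν ^ 2 * x := mul_le_mul q2 a0 hAn (by positivity)
  have m5 : N ^ 2 * B ≤ ν ^ 2 * (x * ν) := mul_le_mul q2 a1 hBn (by positivity)
  have m6 : N ^ 3 * A ≤ ν ^ 3 * x := mul_le_mul q3 a0 hAn (by positivity)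
  have p1 : 0 ≤ x * ν := by positivity
  have p2 : 0 ≤ x * ν ^ 2 := by positivity
  have p3 : 0 ≤ x * ν ^ 3 := by positivity
  refine ⟨by rw [← hA]; linarith, ?_, ?_, ?_⟩
  · rw [map_add, map_mul, map_mul, map_ofNat]
    refine (norm_add_le _ _).trans ?_
    rw [norm_mul, norm_mul, n3, ← hNd, ← hA, ← hB]
    nlinarith
  · rw [map_add, map_add, map_mul, map_mul, map_mul, map_mul, map_ofNat, map_ofNat, map_pow]
    refine (norm_add_le _ _).trans ?_
    have h5 := norm_add_le (σ (f 2)) (2 * σ (n : K) * σ (f 1))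
    rw [norm_mul, norm_mul, n2, ← hNd, ← hB, ← hC] at h5
    rw [norm_mul (3 * σ (n : K) ^ 2), norm_mul, n3, norm_pow, ← hNd, ← hA]
    nlinarith
  · rw [map_add, map_add, map_add, map_mul, map_mul, map_mul, map_pow, map_pow]
    refine (norm_add_le _ _).trans ?_
    have h5 := norm_add_le (σ (f 3) + σ (n : K) * σ (f 2)) (σ (n : K) ^ 2 * σ (f 1))
    have h6 := norm_add_le (σ (f 3)) (σ (n : K) * σ (f 2))
    rw [norm_mul, ← hNd, ← hC] at h6
    rw [norm_mul (σ (n : K) ^ 2), norm_pow, ← hNd, ← hB] at h5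
    rw [norm_mul (σ (n : K) ^ 3), norm_pow, ← hNd, ← hA]
    nlinarith

theorem tr_lv {K F : Type} [Field K] [CharZero K] [Field F] [Algebra K F] (hd : Module.finrank K F = 3) {f : Fin 4 → K} {w : Fin 2 → F} (h : Lv f w) (n : K) :
    ∃ (u : Fin 2 → F) (k : Fin 2 → K), Lv (trf n f) u ∧ u 0 = w 0 + algebraMap K F (k 0) ∧
      u 1 = w 1 + algebraMap K F n * w 0 + algebraMap K F (k 1) := by
  have hdt : dt (![1, 0] : Fin 2 → K) ![n, 1] = 1 := by simp [dt]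
  obtain ⟨u, hu, k, h0, h1⟩ := lv_pull hd h (v := ![1, 0]) (v' := ![n, 1]) (by rw [hdt]; exact one_ne_zero)
  rw [hdt, inv_one, one_smul] at hu
  refine ⟨u, k, hu, ?_, ?_⟩
  · rw [h0]
    simp [lin]
  · rw [h1]
    simp [lin]
    ring

theorem tr_ix {K F : Type} [Field K] [NumberField K] [Field F] [Algebra K F] {M : Submodule (𝓞 K) F} (hM : ∀ k : K, algebraMap K F k ∈ M) {w u : Fin 2 → F}
    {k : Fin 2 → K} {n : 𝓞 K} (h0 : u 0 = w 0 + algebraMap K F (k 0)) (h1 : u 1 = w 1 + algebraMap K F (n : K) * w 0 + algebraMap K F (k 1))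
    (hw : ∀ i, w i ∈ M) : (∀ i, u i ∈ M) ∧ ix (pre u M) = ix (pre w M) := by
  have hsm : ∀ (r : 𝓞 K) (x : F), r • x = algebraMap K F (r : K) * x := fun r x => by
    rw [Algebra.smul_def]
    rfl
  constructor
  · intro i
    fin_cases i
    · change u 0 ∈ M
      rw [h0]
      exact M.add_mem (hw 0) (hM _)
    · change u 1 ∈ M
      rw [h1]
      refine M.add_mem (M.add_mem (hw 1) ?_) (hM _)
      rw [← hsm]
      exact M.smul_mem n (hw 0)
  · let φ : (Fin 2 → K) →+ (Fin 2 → K) :=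
      { toFun := fun x => ![x 0 + (n : K) * x 1, x 1]
        map_zero' := by
          funext i
          fin_cases i <;> simp
        map_add' := fun x y => by
          funext i
          fin_cases i
          · simp
            ring
          · simp }
    have hφ0 : ∀ x, φ x 0 = x 0 + (n : K) * x 1 := fun x => rfl
    have hφ1 : ∀ x, φ x 1 = x 1 := fun x => rfl
    have hsurj : Function.Surjective φ := by
      intro y
      refine ⟨![y 0 - (n : K) * y 1, y 1], ?_⟩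
      funext i
      fin_cases i
      · change φ _ 0 = _
        rw [hφ0]
        simp
      · rfl
    have hlin : ∀ x : Fin 2 → K, lin u x = lin w (φ x) + algebraMap K F (x 0 * k 0 + x 1 * k 1) := fun x => by
      unfold lin
      rw [hφ0, hφ1, h0, h1]
      simp only [map_add, map_mul]
      ring
    have e1 : (pre u M).toAddSubgroup = ((pre w M).toAddSubgroup).comap φ := by
      ext x
      change lin u x ∈ M ↔ lin w (φ x) ∈ M
      rw [hlin]
      exact M.add_mem_iff_left (hM _)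
    have e2 : (OO K 2).toAddSubgroup = ((OO K 2).toAddSubgroup).comap φ := by
      ext x
      change (∀ i, ∃ a : 𝓞 K, (a : K) = x i) ↔ ∀ i, ∃ a : 𝓞 K, (a : K) = φ x i
      constructor
      · intro h i
        obtain ⟨a, ha⟩ := h 0
        obtain ⟨b, hb⟩ := h 1
        fin_cases i
        · exact ⟨a + n * b, by
            change ((a + n * b : 𝓞 K) : K) = φ x 0
            rw [hφ0, ← ha, ← hb]
            rfl⟩
        · exact ⟨b, by
            change (b : K) = φ x 1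
            rw [hφ1, hb]⟩
      · intro h i
        obtain ⟨a, ha⟩ := h 0
        obtain ⟨b, hb⟩ := h 1
        rw [hφ0] at ha
        rw [hφ1] at hb
        fin_cases i
        · exact ⟨a - n * b, by
            change ((a - n * b : 𝓞 K) : K) = x 0
            have h3 : ((a - n * b : 𝓞 K) : K) = (a : K) - (n : K) * (b : K) := rfl
            rw [h3, ha, hb]
            ring⟩
        · exact ⟨b, by
            change (b : K) = x 1
            rw [hb]⟩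
    unfold ix
    rw [e1]
    conv_lhs => rw [e2]
    rw [AddSubgroup.relIndex_comap, AddSubgroup.map_comap_eq_self_of_surjective hsurj]

end H88.SO
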