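import Pool.Agent.H88.SO.Ix

/-!
# [H88 SO FB] Orders and frames with a given form (60 min)

`N = ⌊κ⌋₊`, `A` from `lat_count K` (`H77/MF/Exp.lean`), `B = 3 N ^ A` (at least 1). Given `g` and a finite set `P` of pairs `(o, u)`, `u` a frame of `o` with form `g`. `P` empty: trivial. `g` has no zero (`lv_ev`): `NZ g`. The map `(o, u) ↦ ((o.c, u), pre u o.M)` is injective: if `(o.c, u) = (o'.c, u')` (destructure the structures, `cases`/`subst`) and
`pre u M = pre u M'`, then `M = M'` by `od_mem`. The first component is in the set `{x | Lv g x.2}` with 3 elements (`recov`), the second in the finite set of `lat_count` (`od_all`, `od_ix`: `Lt`, `OO ≤`, `ix ≤ N`). Finite set with `ncard = 3 ≠ 0`: `Set.finite_of_ncard_ne_zero`.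
-/

set_option autoImplicit false

open scoped NumberField Classical
open IsDedekindDomain H38.ML H63.MA H67.SX H77.MF H97.SXM

noncomputable section

namespace H88.SO

private theorem fib_inj {K : IntermediateField ℚ QBar} [NumberField K] {g : Fin 4 → K} (x y : (o : Od K) × (Fin 2 → o.c.F))
    (hx : Lv g x.2) (hy : Lv g y.2) (h1 : (⟨x.1.c, x.2⟩ : (c : Cb K) × (Fin 2 → c.F)) = ⟨y.1.c, y.2⟩)
    (h2 : pre x.2 x.1.M = pre y.2 y.1.M) : x = y := by
  obtain ⟨⟨c, M, hK, hO⟩, u⟩ := x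
  obtain ⟨⟨c', M', hK', hO'⟩, u'⟩ := y
  dsimp only at hx hy h1 h2
  cases h1
  have hM : M = M' := by
    ext z
    rw [od_mem (⟨c, M, hK, hO⟩ : Od K) hx z, od_mem (⟨c, M', hK', hO'⟩ : Od K) hy z]
    dsimp only
    rw [h2]
  subst hM
  rfl

theorem fib (K : IntermediateField ℚ QBar) [NumberField K] (κ : ℝ) : ∃ B : ℕ, 1 ≤ B ∧ ∀ (g : Fin 4 → K) (P : Finset ((o : Od K) × (Fin 2 → o.c.F))),
    (∀ x ∈ P, Lv g x.2 ∧ (∀ i, x.2 i ∈ x.1.M) ∧ (ix (pre x.2 x.1.M) : ℝ) ≤ κ) → P.card ≤ B := by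
  obtain ⟨A, hA⟩ := lat_count K
  obtain ⟨N, hN⟩ : ∃ N : ℕ, N = max 1 ⌊κ⌋₊ := ⟨_, rfl⟩
  have hN1 : 1 ≤ N := by
    rw [hN]
    exact le_max_left _ _
  obtain ⟨hf, hc⟩ := hA N hN1
  refine ⟨3 * N ^ A, Nat.mul_pos (by norm_num) (Nat.pow_pos hN1), ?_⟩
  intro g P hP
  rcases P.eq_empty_or_nonempty with rfl | ⟨x₀, hx₀⟩
  · rw [Finset.card_empty]
    exact Nat.zero_le _
  · have hNZ : NZ g := fun v hv => lv_ev x₀.1.c.deg (hP x₀ hx₀).1 hv
    have h3 := (recov hNZ).1
    have hf1 : {x : (c : Cb K) × (Fin 2 → c.F) | Lv g x.2}.Finite :=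
      Set.finite_of_ncard_ne_zero (by rw [h3]; norm_num)
    have hcard1 : hf1.toFinset.card = 3 := by
      rw [← Set.ncard_eq_toFinset_card _ hf1, h3]
    have hcard2 : hf.toFinset.card ≤ N ^ A := by
      rw [← Set.ncard_eq_toFinset_card _ hf]
      exact hc
    have h4 : P.card ≤ (hf1.toFinset ×ˢ hf.toFinset).card := by
      refine Finset.card_le_card_of_injOn
        (fun x => ((⟨x.1.c, x.2⟩ : (c : Cb K) × (Fin 2 → c.F)), pre x.2 x.1.M)) ?_ ?_
      · intro x hx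
        obtain ⟨hx1, hx2, hx3⟩ := hP x hx
        have h5 := od_all x.1 hx1
        have h6 := od_ix x.1 hx1 hx2
        rw [Finset.mem_coe, Finset.mem_product, Set.Finite.mem_toFinset, Set.Finite.mem_toFinset]
        refine ⟨hx1, h5.1, h6.1, ?_⟩
        rw [hN]
        exact le_trans (Nat.le_floor hx3) (le_max_right _ _)
      · intro x hx y hy hxy
        rw [Prod.mk.injEq] at hxy
        exact fib_inj x y (hP x hx).1 (hP y hy).1 hxy.1 hxy.2
    rw [Finset.card_product, hcard1] at h4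
    exact h4.trans (Nat.mul_le_mul_left 3 hcard2)

end H88.SO
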