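import Pool.Agent.H88.SO.Bx
import Pool.Agent.H88.SO.Fb

/-!
# [H88 SO CL] The number of the orders of one class (75 min)

Choose for every `o ∈ O` the data `T₁, T₂, f, w` (`RF κ`). `T` = the finite set of `H88.SW.ball_ge` with `r = t2 / t1 ≥ 1`: `c₀ (t2 / t1) ^ d ≤ T.card`. For `(o, n) ∈ O × T`: `g = trf n f` and the frame `u` of `tr_lv`; `Siz (36 κ) t1 t2 g` (`red_siz`, `tr_size`), `g 0 = f 0 ≠ 0` (`lv_ev` with `v = ![1, 0]`), `u i ∈ M`, `ix (pre u M) = ix (pre w M) ≤ κ` (`tr_ix`),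
`g ∈ VL (pre u M)` (`od_all`), so `(ix ^ 2) • g ∈ OO K 4` (`vl_hi`) and `m • g ∈ OO K 4` with `m = (⌊κ⌋₊ !) ^ 2` (`ix ∣ ⌊κ⌋₊ !`). Let `S` be the set of the forms `g`. Double count of `O × T → S`: the pairs `(o, n)` with the same `g` are at most `B` (`fib`): `(o, n) ↦ (o, u)` is injective (same `o`, so same `w`; `u 1` gives `n w 0` up to `K`, `w 0 ∉ K` (`Lv.non`), so
`n` is determined). `O.card * T.card ≤ B * S.card ≤ B C₁ (t1 t2) ^ (2 d)` (`Finset.card_le_mul_card_image`, `box_cnt`). `C = B C₁ / c₀` (and at least 1).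
-/

set_option autoImplicit false

open scoped NumberField Classical
open IsDedekindDomain H38.ML H63.MA H67.SX H77.MF H97.SXM H88.A4

noncomputable section

namespace H88.SO

/-- one order and one translation -/
private theorem cl_one {K : IntermediateField ℚ QBar} [NumberField K] {κ : ℝ} (hκ : 1 ≤ κ) {t1 t2 : ℝ} (h1 : 1 ≤ t1) (h12 : t1 ≤ t2)
    {o : Od K} {T₁ T₂ : ℝ} {f : Fin 4 → K} {w : Fin 2 → o.c.F} (h : RF κ T₁ T₂ o f w) (ha : t1 ≤ T₁) (hb : T₁ ≤ 2 * t1)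
    (hc : t2 ≤ T₂) (hd : T₂ ≤ 2 * t2) {n : 𝓞 K} (hn : Bd (t2 / t1) n) :
    ∃ u : Fin 2 → o.c.F, (Lv (trf (n : K) f) u ∧ (∀ i, u i ∈ o.M) ∧ (ix (pre u o.M) : ℝ) ≤ κ) ∧
      (∃ k : Fin 2 → K, u 1 = w 1 + algebraMap K o.c.F (n : K) * w 0 + algebraMap K o.c.F (k 1)) ∧
      ((((⌊κ⌋₊.factorial) ^ 2 : ℕ) : 𝓞 K)) • (trf (n : K) f) ∈ OO K 4 ∧ trf (n : K) f 0 ≠ 0 ∧ Siz (9 * (4 * κ)) t1 t2 (trf (n : K) f) := by
  obtain ⟨u, k, hu, h0, h1'⟩ := tr_lv o.c.deg h.lv (n : K)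
  obtain ⟨hm, hix⟩ := tr_ix o.hK h0 h1' h.mem
  obtain ⟨hs, hs0⟩ := tr_size (κ := 4 * κ) (by linarith) h1 h12 (red_siz hκ h1 h12 h.red ha hb hc hd) hn
  have hixκ : (ix (pre u o.M) : ℝ) ≤ κ := by
    rw [hix]
    exact h.ix
  obtain ⟨hLt, hVL⟩ := od_all o hu
  obtain ⟨hOO, hpos, -⟩ := od_ix o hu hm
  refine ⟨u, ⟨hu, hm, hixκ⟩, ⟨k, h1'⟩, ?_, ?_, hs⟩
  · have hdvd : ix (pre u o.M) ∣ ⌊κ⌋₊.factorial := Nat.dvd_factorial (by omega) (Nat.le_floor hixκ)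
    obtain ⟨q, hq⟩ := hdvd
    have hv := vl_hi hLt hOO _ hVL
    have he : ((((⌊κ⌋₊.factorial) ^ 2 : ℕ) : 𝓞 K)) • (trf (n : K) f) =
        ((q : 𝓞 K) ^ 2) • (((ix (pre u o.M) : 𝓞 K) ^ 2) • (trf (n : K) f)) := by
      rw [smul_smul, hq]
      congr 1
      push_cast
      ring
    rw [he]
    exact (OO K 4).smul_mem _ hv
  · rw [hs0]
    have h3 := lv_ev o.c.deg h.lv (v := ![1, 0]) (by
      intro hcon
      have := congrFun hcon 0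
      simp at this)
    have h4 : ev f ![1, 0] = f 0 := by
      simp [ev]
    rwa [h4] at h3

theorem od_cls (K : IntermediateField ℚ QBar) [NumberField K] (κ : ℝ) (hκ : 1 ≤ κ) : ∃ C : ℝ, 1 ≤ C ∧ ∀ t1 t2 : ℝ, 1 ≤ t1 → t1 ≤ t2 → ∀ O : Finset (Od K),
    (∀ o ∈ O, ∃ (T₁ T₂ : ℝ) (f : Fin 4 → K) (w : Fin 2 → o.c.F), RF κ T₁ T₂ o f w ∧ t1 ≤ T₁ ∧ T₁ ≤ 2 * t1 ∧ t2 ≤ T₂ ∧ T₂ ≤ 2 * t2) →
    (O.card : ℝ) ≤ C * ((t1 * t2) ^ 2 * (t1 / t2)) ^ Module.finrank ℚ K := by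
  obtain ⟨c0, hc0, hball⟩ := H88.SW.ball_ge K
  obtain ⟨C1, hC1, hbox⟩ := box_cnt K (9 * (4 * κ)) (by linarith) ((⌊κ⌋₊.factorial) ^ 2) (by positivity)
  obtain ⟨B, hB1, hfib⟩ := fib K κ
  refine ⟨max 1 (B * C1 / c0), le_max_left _ _, fun t1 t2 h1 h12 O hO => ?_⟩
  have ht1 : 0 < t1 := by linarith
  have ht2 : 0 < t2 := by linarith
  have hr : 1 ≤ t2 / t1 := by
    rw [le_div_iff₀ ht1]
    linarith
  obtain ⟨T, hT, hTc⟩ := hball (t2 / t1) hr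
  choose! S1 S2 Ff W hRF ha hb hc hd using hO
  have hU : ∀ x : {o // o ∈ O} × {n // n ∈ T}, ∃ u : Fin 2 → x.1.1.c.F,
      (Lv (trf ((x.2.1 : 𝓞 K) : K) (Ff x.1.1)) u ∧ (∀ i, u i ∈ x.1.1.M) ∧ (ix (pre u x.1.1.M) : ℝ) ≤ κ) ∧
      (∃ k : Fin 2 → K, u 1 = W x.1.1 1 + algebraMap K x.1.1.c.F ((x.2.1 : 𝓞 K) : K) * W x.1.1 0 + algebraMap K x.1.1.c.F (k 1)) ∧
      ((((⌊κ⌋₊.factorial) ^ 2 : ℕ) : 𝓞 K)) • (trf ((x.2.1 : 𝓞 K) : K) (Ff x.1.1)) ∈ OO K 4 ∧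
        trf ((x.2.1 : 𝓞 K) : K) (Ff x.1.1) 0 ≠ 0 ∧ Siz (9 * (4 * κ)) t1 t2 (trf ((x.2.1 : 𝓞 K) : K) (Ff x.1.1)) := fun x =>
    cl_one hκ h1 h12 (hRF x.1.1 x.1.2) (ha _ x.1.2) (hb _ x.1.2) (hc _ x.1.2) (hd _ x.1.2) (hT x.2.1 x.2.2)
  choose U hUl hUk hUm hU0 hUs using hU
  obtain ⟨G, hG⟩ : ∃ G : {o // o ∈ O} × {n // n ∈ T} → (Fin 4 → K), G = fun x => trf ((x.2.1 : 𝓞 K) : K) (Ff x.1.1) := ⟨_, rfl⟩
  have hinj : Function.Injective (fun x : {o // o ∈ O} × {n // n ∈ T} => (⟨x.1.1, U x⟩ : (o : Od K) × (Fin 2 → o.c.F))) := by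
    rintro ⟨⟨o, ho⟩, ⟨n, hn⟩⟩ ⟨⟨o', ho'⟩, ⟨n', hn'⟩⟩ he
    rw [Sigma.mk.injEq] at he
    obtain ⟨he1, he2⟩ := he
    change o = o' at he1
    subst he1
    have he3 : U (⟨o, ho⟩, ⟨n, hn⟩) = U (⟨o, ho'⟩, ⟨n', hn'⟩) := eq_of_heq he2
    obtain ⟨k, hk⟩ := hUk (⟨o, ho⟩, ⟨n, hn⟩)
    obtain ⟨k', hk'⟩ := hUk (⟨o, ho'⟩, ⟨n', hn'⟩)
    rw [he3, hk'] at hk
    have hnn : n = n' := by
      by_contra hne
      refine (hRF o ho).lv.non ⟨(k 1 - k' 1) / ((n' : K) - (n : K)), ?_⟩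
      have hne' : algebraMap K o.c.F ((n' : K) - (n : K)) ≠ 0 := by
        rw [Ne, FaithfulSMul.algebraMap_eq_zero_iff, sub_eq_zero]
        exact fun h => hne (NumberField.RingOfIntegers.ext h.symm)
      rw [map_div₀, div_eq_iff hne', map_sub, map_sub]
      change W o 1 + algebraMap K o.c.F (n' : K) * W o 0 + algebraMap K o.c.F (k' 1) =
        W o 1 + algebraMap K o.c.F (n : K) * W o 0 + algebraMap K o.c.F (k 1) at hk
      linear_combination -hk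
    subst hnn
    rfl
  have hS : (((Finset.univ : Finset ({o // o ∈ O} × {n // n ∈ T})).image G).card : ℝ) ≤ C1 * ((t1 * t2) ^ 2) ^ Module.finrank ℚ K := by
    refine hbox t1 t2 h1 h12 _ fun g hg => ?_
    rw [Finset.mem_image] at hg
    obtain ⟨x, -, rfl⟩ := hg
    rw [hG]
    exact ⟨hUm x, hU0 x, hUs x⟩
  have hP : (Finset.univ : Finset ({o // o ∈ O} × {n // n ∈ T})).card ≤ B * ((Finset.univ : Finset ({o // o ∈ O} × {n // n ∈ T})).image G).card := by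
    refine Finset.card_le_mul_card_image _ _ fun g _ => ?_
    rw [← Finset.card_image_of_injective _ hinj]
    refine hfib g _ fun y hy => ?_
    rw [Finset.mem_image] at hy
    obtain ⟨x, hx, rfl⟩ := hy
    rw [Finset.mem_filter] at hx
    have h5 := hUl x
    rw [← hx.2, hG]
    exact h5
  rw [Finset.card_univ, Fintype.card_prod, Fintype.card_coe, Fintype.card_coe] at hP
  have hP' : (O.card : ℝ) * T.card ≤ B * (C1 * ((t1 * t2) ^ 2) ^ Module.finrank ℚ K) := by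
    have h5 : ((O.card * T.card : ℕ) : ℝ) ≤ ((B * ((Finset.univ : Finset ({o // o ∈ O} × {n // n ∈ T})).image G).card : ℕ) : ℝ) := by
      exact_mod_cast hP
    push_cast at h5
    exact h5.trans (mul_le_mul_of_nonneg_left hS (by positivity))
  have h6 : (O.card : ℝ) * (c0 * (t2 / t1) ^ Module.finrank ℚ K) ≤ B * (C1 * ((t1 * t2) ^ 2) ^ Module.finrank ℚ K) :=
    (mul_le_mul_of_nonneg_left hTc (by positivity)).trans hP'
  have h7 : (t1 / t2) ^ Module.finrank ℚ K * (t2 / t1) ^ Module.finrank ℚ K = 1 := by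
    rw [← mul_pow]
    have : t1 / t2 * (t2 / t1) = 1 := by field_simp
    rw [this, one_pow]
  have h8 : (O.card : ℝ) ≤ (B * C1 / c0) * ((t1 * t2) ^ 2 * (t1 / t2)) ^ Module.finrank ℚ K := by
    have h9 : (O.card : ℝ) = ((O.card : ℝ) * (c0 * (t2 / t1) ^ Module.finrank ℚ K)) * ((t1 / t2) ^ Module.finrank ℚ K / c0) := by
      have : (O.card : ℝ) * (c0 * (t2 / t1) ^ Module.finrank ℚ K) * ((t1 / t2) ^ Module.finrank ℚ K / c0) =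
          O.card * ((t1 / t2) ^ Module.finrank ℚ K * (t2 / t1) ^ Module.finrank ℚ K) := by
        field_simp
      rw [this, h7, mul_one]
    rw [h9]
    refine (mul_le_mul_of_nonneg_right h6 (by positivity)).trans (le_of_eq ?_)
    rw [mul_pow]
    ring
  exact h8.trans (mul_le_mul_of_nonneg_right (le_max_right _ _) (by positivity))

end H88.SO
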