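import Pool.Agent.H88.SO.MkS

/-!
# [H88 SO TBS] Short elements `1, t1, t2` of a subgroup of the integers (30 min)

This is `H88.SW.tb_short` (`H88/SW/TbA.lean`) with `R` instead of the integers: copy the proof, use `mink_sub` instead of `mink` (the `x i` are in `R`, so integral by `mem_OFA`); `1 ∈ R` is only needed to say that `1` is an integral element (the exchange uses `1 = ∑ c i • x i` in `F`), `t1`, `t2` are two of the `x i`.
Square of the inequality: `(T1 T2) ^ (2 d) ≤ C ^ 2 |disc F| i ^ 2`, `i = R.relIndex (OFA F)`.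
-/

set_option autoImplicit false

open scoped NumberField nonZeroDivisors

noncomputable section

namespace H88.SO

private theorem tb_prod_norm {F : Type} [Field F] [NumberField F] (x : F) :
    ∏ φ : F →+* ℂ, ‖φ x‖ = |((Algebra.norm ℚ x : ℚ) : ℝ)| := by
  have h := Algebra.norm_eq_prod_embeddings ℚ ℂ x
  have h2 : ‖(algebraMap ℚ ℂ) (Algebra.norm ℚ x)‖ = ∏ σ : F →ₐ[ℚ] ℂ, ‖σ x‖ := by
    rw [h, norm_prod]
  have h3 : ∏ φ : F →+* ℂ, ‖φ x‖ = ∏ σ : F →ₐ[ℚ] ℂ, ‖σ x‖ :=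
    Fintype.prod_equiv (RingHom.equivRatAlgHom F ℂ) _ _ (fun φ => rfl)
  rw [h3, ← h2, eq_ratCast, Complex.norm_ratCast]

private theorem tb_one_le {F : Type} [Field F] [NumberField F] (y : 𝓞 F) (hy : (y : F) ≠ 0) {L : ℝ} (hL : 0 < L)
    (h : ∀ φ : F →+* ℂ, ‖φ (y : F)‖ ≤ L) : 1 ≤ L := by
  by_contra hlt
  push Not at hlt
  have h1 : (1 : ℝ) ≤ |((Algebra.norm ℚ (y : F) : ℚ) : ℝ)| := by
    rw [← Algebra.coe_norm_int y]
    have h2 : Algebra.norm ℤ y ≠ 0 := by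
      intro h0
      have h3 : Algebra.norm ℚ (y : F) = 0 := by rw [← Algebra.coe_norm_int y, h0, Int.cast_zero]
      exact hy (Algebra.norm_eq_zero_iff.1 h3)
    have h3 : (1 : ℤ) ≤ |Algebra.norm ℤ y| := Int.one_le_abs h2
    exact_mod_cast h3
  rw [← tb_prod_norm] at h1
  have h2 : ∏ φ : F →+* ℂ, ‖φ (y : F)‖ ≤ ∏ _φ : F →+* ℂ, L :=
    Finset.prod_le_prod (fun φ _ => norm_nonneg _) fun φ _ => h φ
  rw [Finset.prod_const] at h2
  have h3 : 0 < (Finset.univ : Finset (F →+* ℂ)).card := Finset.card_pos.2 Finset.univ_nonempty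
  have h4 : L ^ (Finset.univ : Finset (F →+* ℂ)).card < 1 := pow_lt_one₀ hL.le hlt h3.ne'
  linarith

private theorem tb_li {K F : Type} [Field K] [Field F] [Algebra K F] {x y z : F}
    (h : LinearIndependent K ![x, y, z]) {a b c : K} (ha : a ≠ 0) (h1 : (1 : F) = a • x + b • y + c • z) :
    LinearIndependent K ![1, y, z] := by
  rw [Fintype.linearIndependent_iff] at h ⊢
  intro g hg
  rw [Fin.sum_univ_three] at hg
  simp only [Matrix.cons_val_zero, Matrix.cons_val_one, Matrix.cons_val] at hg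
  rw [h1] at hg
  have h2 := h ![g 0 * a, g 0 * b + g 1, g 0 * c + g 2] (by
    rw [Fin.sum_univ_three]
    simp only [Matrix.cons_val_zero, Matrix.cons_val_one, Matrix.cons_val]
    rw [← hg]
    simp only [smul_add, smul_smul, add_smul]
    ring)
  have h3 := h2 0
  have h4 := h2 1
  have h5 := h2 2
  simp only [Matrix.cons_val_zero, Matrix.cons_val_one, Matrix.cons_val] at h3 h4 h5
  have h6 : g 0 = 0 := (mul_eq_zero.1 h3).resolve_right ha
  rw [h6, zero_mul, zero_add] at h4 h5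
  intro i
  fin_cases i
  · exact h6
  · exact h4
  · exact h5

theorem tb_sub (K : Type) [Field K] [NumberField K] : ∃ κ : ℝ, 1 ≤ κ ∧ ∀ (F : Type) [Field F] [NumberField F] [Algebra K F],
    Module.finrank K F = 3 → ∀ R : AddSubgroup F, R ≤ OFA F → R.relIndex (OFA F) ≠ 0 → (1 : F) ∈ R → ∃ (t1 t2 : F) (T1 T2 : ℝ),
      t1 ∈ R ∧ t2 ∈ R ∧ LinearIndependent K ![1, t1, t2] ∧ 1 ≤ T1 ∧ T1 ≤ T2 ∧ (∀ φ : F →+* ℂ, ‖φ t1‖ ≤ T1) ∧
      (∀ φ : F →+* ℂ, ‖φ t2‖ ≤ T2) ∧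
      (T1 * T2) ^ (2 * Module.finrank ℚ K) ≤ κ * |(NumberField.discr F : ℝ)| * (R.relIndex (OFA F) : ℝ) ^ 2 := by
  obtain ⟨C, hC, hM⟩ := mink_sub K
  refine ⟨max 1 (C ^ 2), le_max_left _ _, fun F _ _ _ hF R hR hi _ => ?_⟩
  obtain ⟨x, l, hx, hxL, hl0, hl1, hl2, hs', hp⟩ := hM F hF R hR hi
  have hint : ∀ i, ∃ y : 𝓞 F, (y : F) = x i := fun i => hR (hxL i)
  have hlp : ∀ i, 0 < l i := fun i => by
    fin_cases i
    · exact hl0
    · exact hl0.trans_le hl1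
    · exact (hl0.trans_le hl1).trans_le hl2
  have hl : ∀ i, 1 ≤ l i := fun i => by
    obtain ⟨y, hy⟩ := hint i
    refine tb_one_le y ?_ (hlp i) fun φ => ?_
    · rw [hy]
      exact hx.ne_zero i
    · rw [hy]
      exact hs' i φ
  have hdisc : (l 0 * l 1 * l 2) ^ (2 * Module.finrank ℚ K) ≤ max 1 (C ^ 2) * |(NumberField.discr F : ℝ)| * (R.relIndex (OFA F) : ℝ) ^ 2 := by
    have h2 : 0 ≤ (l 0 * l 1 * l 2) ^ Module.finrank ℚ K := by
      have := hlp 0
      have := hlp 1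
      have := hlp 2
      positivity
    rw [mul_comm 2, pow_mul]
    calc ((l 0 * l 1 * l 2) ^ Module.finrank ℚ K) ^ 2 ≤ (C * Real.sqrt |(NumberField.discr F : ℝ)| * (R.relIndex (OFA F) : ℝ)) ^ 2 :=
          pow_le_pow_left₀ h2 hp 2
      _ = C ^ 2 * |(NumberField.discr F : ℝ)| * (R.relIndex (OFA F) : ℝ) ^ 2 := by rw [mul_pow, mul_pow, Real.sq_sqrt (abs_nonneg _)]
      _ ≤ max 1 (C ^ 2) * |(NumberField.discr F : ℝ)| * (R.relIndex (OFA F) : ℝ) ^ 2 :=
          mul_le_mul_of_nonneg_right (mul_le_mul_of_nonneg_right (le_max_right _ _) (abs_nonneg _)) (by positivity)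
  have hkey : ∀ T1 T2 : ℝ, 1 ≤ T1 → 1 ≤ T2 → T1 * T2 ≤ l 0 * l 1 * l 2 →
      (T1 * T2) ^ (2 * Module.finrank ℚ K) ≤ max 1 (C ^ 2) * |(NumberField.discr F : ℝ)| * (R.relIndex (OFA F) : ℝ) ^ 2 := fun T1 T2 h1 h2 h3 =>
    (pow_le_pow_left₀ (by positivity) h3 _).trans hdisc
  have e0 := hl 0
  have e1 := hl 1
  have e2 := hl 2
  -- the coordinates of `1`
  let b := basisOfLinearIndependentOfCardEqFinrank hx (by rw [hF, Fintype.card_fin])
  have hb : ∀ i, b i = x i := fun i => by rw [coe_basisOfLinearIndependentOfCardEqFinrank]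
  have h1 : (1 : F) = b.repr 1 0 • x 0 + b.repr 1 1 • x 1 + b.repr 1 2 • x 2 := by
    have h2 := b.sum_repr 1
    rw [Fin.sum_univ_three, hb, hb, hb] at h2
    exact h2.symm
  obtain ⟨c, hc⟩ : ∃ c : Fin 3 → K, c = fun i => b.repr 1 i := ⟨_, rfl⟩
  have h1' : (1 : F) = c 0 • x 0 + c 1 • x 1 + c 2 • x 2 := by rw [hc]; exact h1
  have hx0 : LinearIndependent K ![x 0, x 1, x 2] := by
    have h2 := hx.comp ![0, 1, 2] (by decide)
    convert h2 using 1
    funext i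
    fin_cases i <;> rfl
  have hx1 : LinearIndependent K ![x 1, x 0, x 2] := by
    have h2 := hx.comp ![1, 0, 2] (by decide)
    convert h2 using 1
    funext i
    fin_cases i <;> rfl
  have hx2 : LinearIndependent K ![x 2, x 0, x 1] := by
    have h2 := hx.comp ![2, 0, 1] (by decide)
    convert h2 using 1
    funext i
    fin_cases i <;> rfl
  by_cases c0 : c 0 = 0
  · by_cases c1 : c 1 = 0
    · have c2 : c 2 ≠ 0 := by
        intro c2
        rw [c0, c1, c2, zero_smul, zero_smul, zero_smul, add_zero, add_zero] at h1'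
        exact one_ne_zero h1'
      refine ⟨x 0, x 1, l 0, l 1, hxL 0, hxL 1, tb_li hx2 c2 (b := c 0) (c := c 1) (by rw [h1']; ring), e0, hl1, hs' 0, hs' 1, hkey _ _ e0 e1 ?_⟩
      have h3 : 0 ≤ l 0 * l 1 := by positivity
      nlinarith
    · refine ⟨x 0, x 2, l 0, l 2, hxL 0, hxL 2, tb_li hx1 c1 (b := c 0) (c := c 2) (by rw [h1']; ring), e0, hl1.trans hl2, hs' 0, hs' 2, hkey _ _ e0 e2 ?_⟩
      have h3 : 0 ≤ l 0 * l 2 := by positivity
      nlinarith
  · refine ⟨x 1, x 2, l 1, l 2, hxL 1, hxL 2, tb_li hx0 c0 (b := c 1) (c := c 2) h1', e1, hl2, hs' 1, hs' 2, hkey _ _ e1 e2 ?_⟩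
    have h3 : 0 ≤ l 1 * l 2 := by positivity
    nlinarith

end H88.SO
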